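import Pool.Agent.MP_776d16_ag.H79.Log

/-! Algebraic lemmas for the cone over a plane cubic. -/

namespace Pool.Agent.MP_776d16_ag.H79

open MvPolynomial Pool.Agent.MP_776d16_ag.H55

section Kill

variable {σ : Type} [DecidableEq σ]

/-- Substitution of zero for one variable. -/
noncomputable def kill (z : σ) : MvPolynomial σ ℂ →ₐ[ℂ] MvPolynomial σ ℂ :=
  aeval fun a => if a = z then 0 else X a

theorem kill_X (z a : σ) : kill z (X a) = if a = z then 0 else X a := by simp [kill]

theorem X_dvd_sub_kill (z : σ) (F : MvPolynomial σ ℂ) : X z ∣ F - kill z F := by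
  induction F using MvPolynomial.induction_on with
  | C c => simp [kill]
  | add p q h h' =>
    rw [map_add, add_sub_add_comm]
    exact dvd_add h h'
  | mul_X p a h =>
    rw [map_mul, kill_X]
    split_ifs with e
    · rw [e, mul_zero, sub_zero]; exact dvd_mul_left _ _
    · rw [← sub_mul]; exact h.mul_right _

theorem kill_homog (z : σ) {F : MvPolynomial σ ℂ} {e : ℕ} (hF : F.IsHomogeneous e) :
    (kill z F).IsHomogeneous e := by
  have := hF.aeval (fun a => if a = z then (0 : MvPolynomial σ ℂ) else X a) (n := 1) fun a => by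
    split_ifs
    exacts [isHomogeneous_zero _ _ _, isHomogeneous_X _ _]
  rwa [one_mul] at this

theorem sq_dvd_pderiv {p h : MvPolynomial σ ℂ} (v : σ) (hd : p ^ 2 ∣ h) : p ∣ pderiv v h := by
  obtain ⟨q, rfl⟩ := hd
  refine ⟨p * pderiv v q + 2 * q * pderiv v p, ?_⟩
  simp only [pow_two, Derivation.leibniz, smul_eq_mul]
  ring

/-- `y ^ 3 + X v ^ 3` is squarefree if `y` is `1` or another variable. -/
theorem sqfree {v : σ} {y : MvPolynomial σ ℂ} (hy : y = 1 ∨ ∃ u, u ≠ v ∧ y = X u)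
    {p : MvPolynomial σ ℂ} (hp : Prime p) : ¬ p ^ 2 ∣ y ^ 3 + X v ^ 3 := by
  intro hd
  have h1 := sq_dvd_pderiv v hd
  have h2 : pderiv v y = 0 := by
    rcases hy with rfl | ⟨u, hu, rfl⟩
    · simp
    · exact pderiv_X_of_ne hu
  have h3 : pderiv v (y ^ 3 + X v ^ 3) = C 3 * X v ^ 2 := by
    simp only [map_add, Derivation.leibniz_pow, h2, pderiv_X_self, smul_eq_mul, nsmul_eq_mul]
    simp [map_ofNat]
  rw [h3] at h1
  have h4 : p ∣ X v := hp.dvd_of_dvd_pow
    ((IsUnit.dvd_mul_left ((Ne.isUnit (by norm_num : (3 : ℂ) ≠ 0)).map C)).1 h1)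
  have h5 : p ∣ y := hp.dvd_of_dvd_pow (n := 3)
    ((dvd_add_left (dvd_pow h4 (by norm_num))).1 ((dvd_pow_self p (by norm_num)).trans hd))
  rcases hy with rfl | ⟨u, hu, rfl⟩
  · exact hp.not_dvd_one h5
  · have h6 := ((hp.irreducible.dvd_irreducible_iff_associated
      (X_prime (i := v)).irreducible).1 h4).symm.dvd.trans h5
    rw [X_dvd_X] at h6
    exact hu h6.symm

end Kill

theorem prime_cubic {B : Type} [CommRing B] [IsDomain B] [UniqueFactorizationMonoid B] {h : B}
    (h1 : ¬ IsUnit h) (h2 : ∀ p : B, Prime p → ¬ p ^ 2 ∣ h) (h0 : h ≠ 0) :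
    Prime (Polynomial.X ^ 3 + Polynomial.C h) := by
  have hm : (Polynomial.X ^ 3 + Polynomial.C h).Monic := Polynomial.monic_X_pow_add_C h (by norm_num)
  have hd : (Polynomial.X ^ 3 + Polynomial.C h).natDegree = 3 := Polynomial.natDegree_X_pow_add_C
  refine UniqueFactorizationMonoid.irreducible_iff_prime.1
    ((hm.irreducible_iff_roots_eq_zero_of_degree_le_three (by omega) (by omega)).2 ?_)
  refine Multiset.eq_zero_of_forall_notMem fun r hr => ?_
  have h3 : h = (-r) ^ 3 := by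
    have := (Polynomial.mem_roots hm.ne_zero).1 hr
    simp only [Polynomial.IsRoot.def, Polynomial.eval_add, Polynomial.eval_pow, Polynomial.eval_X,
      Polynomial.eval_C] at this
    linear_combination this
  have h4 : -r ≠ 0 := fun e => h0 (by rw [h3, e]; ring)
  obtain ⟨p, hp, h5⟩ := WfDvdMonoid.exists_irreducible_factor
    (fun hu : IsUnit (-r) => h1 (h3 ▸ hu.pow 3)) h4
  exact h2 p (UniqueFactorizationMonoid.irreducible_iff_prime.1 hp)
    (h3 ▸ (pow_dvd_pow_of_dvd h5 2).trans (pow_dvd_pow _ (by norm_num)))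

theorem prime_fermat (m : ℕ) :
    Prime (X 0 ^ 3 + X (Fin.succ 0) ^ 3 + X (Fin.succ (Fin.succ 0)) ^ 3 :
      MvPolynomial (Fin (m + 3)) ℂ) := by
  rw [← MulEquiv.prime_iff (finSuccEquiv ℂ (m + 2))]
  simp only [map_add, map_pow, finSuccEquiv_X_zero, finSuccEquiv_X_succ]
  rw [add_assoc, ← map_pow, ← map_pow, ← map_add]
  refine prime_cubic (fun hu => ?_)
    (fun p hp => sqfree (Or.inr ⟨0, (Fin.succ_ne_zero _).symm, rfl⟩) hp) fun e => ?_
  · simpa using hu.map (eval (0 : Fin (m + 2) → ℂ))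
  · have := congrArg (eval (fun _ : Fin (m + 2) => (1 : ℂ))) e
    norm_num at this

theorem deh_inj {N e : ℕ} {i : Fin (N + 1)} {G : MvPolynomial (Fin (N + 1)) ℂ}
    (hG : G.IsHomogeneous e) (h : deh i G = 0) : G = 0 := by
  have : G * X i = 0 := MvPolynomial.funext fun v => by
    by_cases hv : v i = 0
    · simp [hv]
    · rw [map_mul, eval_deh hv hG, h]; simp
  exact (mul_eq_zero.1 this).resolve_right (X_ne_zero i)

variable {K : Type} [Field K]

theorem exists_ext {B : Type} [CommRing B] [IsDomain B] {φ : B →+* K} (hφ : Function.Injective φ)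
    {p : B} (hp : Prime p) : ∃ V : ValuationSubring K, (∀ b, φ b ∈ V) ∧
      V.valuation (φ p) < 1 ∧ ∀ b, ¬ p ∣ b → V.valuation (φ b) = 1 := by
  have hP : (Ideal.span {p}).IsPrime := (Ideal.span_singleton_prime hp.ne_zero).2 hp
  have hu : ∀ y : (Ideal.span {p}).primeCompl, IsUnit (φ y) := fun y =>
    Ne.isUnit fun e => y.2 (by
      rw [hφ (e.trans (map_zero φ).symm)]; exact Ideal.zero_mem _)
  let L := Localization.AtPrime (Ideal.span {p})
  let ψ : L →+* K := IsLocalization.lift hu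
  obtain ⟨V, h, hl⟩ := IsLocalRing.exists_factor_valuationRing ψ
  have e : ∀ b, ψ (algebraMap B L b) = φ b := fun b => IsLocalization.lift_eq hu b
  have key : ∀ b, V.valuation (φ b) = 1 ↔ ¬ p ∣ b := fun b => by
    rw [← Ideal.mem_span_singleton, ← Ideal.mem_primeCompl_iff,
      ← IsLocalization.AtPrime.isUnit_to_map_iff L, ← e,
      ← isUnit_map_iff (ψ.codRestrict V.toSubring h)]
    exact (V.valuation_eq_one_iff ⟨_, h _⟩).symm
  have hm : ∀ b, φ b ∈ V := fun b => e b ▸ h _
  exact ⟨V, hm, lt_of_le_of_ne ((V.valuation_le_one_iff _).2 (hm p))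
    fun h1 => (key p).1 h1 dvd_rfl, fun b => (key b).2⟩

/-- Denominators of integral elements of a cubic radical extension. -/
theorem dvd_of_int {B : Type} [CommRing B] [IsDomain B] [UniqueFactorizationMonoid B]
    {φ : B →+* K} (hφ : Function.Injective φ) {h b d : B} (h0 : h ≠ 0)
    (h2 : ∀ p : B, Prime p → ¬ p ^ 2 ∣ h) (hd : d ≠ 0) {w : K} (hw : w ^ 3 = -φ h) {e : ℕ}
    (he : e ≤ 2) (hi : ∀ V : ValuationSubring K, (∀ b, φ b ∈ V) → φ b * w ^ e / φ d ∈ V) :
    d ∣ b := by
  obtain ⟨a', b', c, hr, rfl, rfl⟩ := UniqueFactorizationMonoid.exists_reduced_factors' b d hd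
  have hb' : b' ≠ 0 := right_ne_zero_of_mul hd
  have hn : ∀ {x : B}, x ≠ 0 → φ x ≠ 0 := fun hx e => hx (hφ (e.trans (map_zero φ).symm))
  refine mul_dvd_mul_left c (IsUnit.dvd (by_contra fun hu => ?_))
  obtain ⟨p, hp, h5⟩ := WfDvdMonoid.exists_irreducible_factor hu hb'
  have hp' := UniqueFactorizationMonoid.irreducible_iff_prime.1 hp
  obtain ⟨V, a1, a2, a3⟩ := exists_ext hφ hp'
  have a4 := (V.valuation_le_one_iff _).2 (hi V a1)
  have a5 : 0 < V.valuation (φ p) := (Valuation.pos_iff _).2 (hn hp.ne_zero)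
  rw [map_mul φ, map_mul φ, mul_assoc, mul_div_mul_left _ _ (hn (left_ne_zero_of_mul hd)),
    map_div₀, div_le_one₀ ((Valuation.pos_iff _).2 (hn hb')), map_mul,
    a3 a' fun h6 => hp.not_isUnit (hr h6 h5), one_mul, map_pow] at a4
  have a6 : V.valuation (φ b') ≤ V.valuation (φ p) := by
    obtain ⟨q, rfl⟩ := h5
    rw [map_mul, map_mul]
    exact mul_le_of_le_one_right' ((V.valuation_le_one_iff _).2 (a1 q))
  have a7 : V.valuation (φ p) ≤ V.valuation w ^ 3 := by
    rw [← map_pow, hw, Valuation.map_neg]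
    by_cases h6 : p ∣ h
    · obtain ⟨q, rfl⟩ := h6
      rw [map_mul, map_mul, a3 q fun h7 => h2 p hp' (pow_two p ▸ mul_dvd_mul_left p h7), mul_one]
    · rw [a3 h h6]; exact a2.le
  have a8 : V.valuation (φ p) ^ 2 ≤ V.valuation (φ p) ^ 3 :=
    calc V.valuation (φ p) ^ 2 ≤ V.valuation (φ p) ^ e := pow_le_pow_of_le_one a5.le a2.le he
      _ ≤ (V.valuation w ^ 3) ^ e := pow_le_pow_left₀ a5.le a7 e
      _ = (V.valuation w ^ e) ^ 3 := by rw [← pow_mul, ← pow_mul, mul_comm]
      _ ≤ _ := pow_le_pow_left₀ zero_le (a4.trans a6) 3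
  exact (pow_lt_pow_right_of_lt_one₀ a5 a2 (by norm_num : 2 < 3)).not_ge a8

variable [Algebra ℂ K] {N : ℕ} {ξ : Fin (N + 1) → K} {x : PP N} {i : Fin (N + 1)}

/-- An element that is integral over a local ring has a multiple that is integral over the
coordinate ring. -/
theorem exists_mult (hx : x ∈ var ξ) (hi : x.rep i ≠ 0) {g : K} (hg : IsIntegral (loc ξ x) g) :
    ∃ s : MvPolynomial (Fin N) ℂ, eval (ch x.rep i) s ≠ 0 ∧ ∀ V : ValuationSubring K,
      (∀ a : MvPolynomial (Fin N) ℂ, aeval (ch ξ i) a ∈ V) → aeval (ch ξ i) s * g ∈ V := by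
  classical
  obtain ⟨p, hp, h0⟩ := hg
  choose a b h1 h2 using fun k => (mem_loc hx hi).1 (p.coeff k).2
  let P := p.map (loc ξ x).subtype
  have hP : P.Monic := hp.map _
  refine ⟨∏ k ∈ Finset.range (P.natDegree + 1), b k, ?_, fun V hV => ?_⟩
  · rw [map_prod]
    exact Finset.prod_ne_zero_iff.2 fun k _ => h1 k
  set s := aeval (ch ξ i) (∏ k ∈ Finset.range (P.natDegree + 1), b k) with hs
  have hc : ∀ k, (P.scaleRoots s).coeff k ∈ V.toSubring := by
    intro k
    rw [Polynomial.coeff_scaleRoots]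
    rcases lt_trichotomy k P.natDegree with h | h | h
    · obtain ⟨r, hr⟩ : ∃ r, P.natDegree - k = r + 1 := ⟨P.natDegree - k - 1, by omega⟩
      rw [hr, pow_succ', ← mul_assoc]
      refine mul_mem ?_ (pow_mem (hV _) _)
      rw [hs, ← Finset.mul_prod_erase _ _ (Finset.mem_range.2 (by omega : k < P.natDegree + 1)),
        map_mul, ← mul_assoc, Polynomial.coeff_map]
      exact mul_mem (by rw [Subring.subtype_apply, h2]; exact hV _) (hV _)
    · rw [h, hP.coeff_natDegree, Nat.sub_self, pow_zero, mul_one]; exact one_mem _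
    · rw [Polynomial.coeff_eq_zero_of_natDegree_lt h, zero_mul]; exact zero_mem _
  have hsub : ((P.scaleRoots s).coeffs : Set K) ⊆ V.toSubring := fun c hc' => by
    obtain ⟨k, -, rfl⟩ := Polynomial.mem_coeffs_iff.1 hc'
    exact hc k
  have : IsIntegrallyClosedIn V.toSubring K := inferInstanceAs (IsIntegrallyClosedIn V K)
  refine Subring.isIntegrallyClosedIn_iff.1 this ⟨(P.scaleRoots s).toSubring _ hsub,
    (Polynomial.monic_toSubring _ _ _).2 ((Polynomial.monic_scaleRoots_iff s).2 hP), ?_⟩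
  rw [Polynomial.eval₂_eq_eval_map]
  change Polynomial.eval _ (Polynomial.map V.toSubring.subtype _) = 0
  rw [Polynomial.map_toSubring, Polynomial.scaleRoots_eval_mul, Polynomial.eval_map]
  exact mul_eq_zero_of_right _ h0

theorem aeval_deh_X (hi : ξ i ≠ 0) (a : Fin (N + 1)) :
    aeval (ch ξ i) (deh i (X a)) = ξ a / ξ i := by
  have := aeval_deh hi (isHomogeneous_X ℂ a)
  rw [aeval_X, pow_one] at this
  rw [this, mul_div_cancel_left₀ _ hi]

theorem aeval_mem {σ : Type} {S : Subring K} (hc : ∀ c : ℂ, algebraMap ℂ K c ∈ S) {y : σ → K}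
    (hy : ∀ j, y j ∈ S) (a : MvPolynomial σ ℂ) : aeval y a ∈ S := by
  induction a using MvPolynomial.induction_on with
  | C c => simpa using hc c
  | add p q h h' => rw [map_add]; exact S.add_mem h h'
  | mul_X p j h => rw [map_mul, aeval_X]; exact S.mul_mem h (hy j)

end Pool.Agent.MP_776d16_ag.H79
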