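import Pool.Agent.MP_776d16_ag.H79.Forms

/-! Affine charts of a projective variety. -/

namespace Pool.Agent.MP_776d16_ag.H79

open MvPolynomial Pool.Agent.MP_776d16_ag.H55

variable {K : Type} [Field K] [Algebra ℂ K] {N : ℕ}

/-- Affine coordinates in the chart `i`. -/
def ch {L : Type} [Field L] (v : Fin (N + 1) → L) (i : Fin (N + 1)) : Fin N → L :=
  fun j => v (i.succAbove j) / v i

/-- Dehomogenization. -/
noncomputable def deh (i : Fin (N + 1)) :
    MvPolynomial (Fin (N + 1)) ℂ →ₐ[ℂ] MvPolynomial (Fin N) ℂ :=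
  aeval (i.insertNth (α := fun _ => MvPolynomial (Fin N) ℂ) 1 X)

@[simp] theorem deh_self (i : Fin (N + 1)) : deh i (X i) = 1 := by simp [deh]

@[simp] theorem deh_succ (i : Fin (N + 1)) (j : Fin N) : deh i (X (i.succAbove j)) = X j := by
  simp [deh]

theorem aeval_smul {σ : Type} {F : MvPolynomial σ ℂ} {e : ℕ} (hF : F.IsHomogeneous e) (c : K)
    (v : σ → K) : aeval (fun a => c * v a) F = c ^ e * aeval v F := by
  classical
  rw [aeval_def, aeval_def, eval₂_eq, eval₂_eq, Finset.mul_sum]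
  refine Finset.sum_congr rfl fun s hs => ?_
  have hdeg := hF.degree_eq_sum_deg_support hs
  simp only [mul_pow, Finset.prod_mul_distrib, Finset.prod_pow_eq_pow_sum]
  rw [hdeg]; ring

theorem aeval_deh {v : Fin (N + 1) → K} {i : Fin (N + 1)} (hv : v i ≠ 0)
    {F : MvPolynomial (Fin (N + 1)) ℂ} {e : ℕ} (hF : F.IsHomogeneous e) :
    aeval v F = v i ^ e * aeval (ch v i) (deh i F) := by
  have h1 : (aeval (ch v i)).comp (deh i) = aeval fun a => v a / v i := by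
    refine MvPolynomial.algHom_ext fun a => ?_
    rw [AlgHom.comp_apply]
    refine i.succAboveCases ?_ (fun j => ?_) a
    · simp [hv]
    · simp [ch]
  rw [← AlgHom.comp_apply, h1, ← aeval_smul hF]
  congr 2
  funext a
  rw [mul_div_cancel₀ _ hv]

theorem eval_deh {v : Fin (N + 1) → ℂ} {i : Fin (N + 1)} (hv : v i ≠ 0)
    {F : MvPolynomial (Fin (N + 1)) ℂ} {e : ℕ} (hF : F.IsHomogeneous e) :
    eval v F = v i ^ e * eval (ch v i) (deh i F) := by
  simpa only [aeval_eq_eval] using aeval_deh hv hF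

theorem homog (i : Fin (N + 1)) (a : MvPolynomial (Fin N) ℂ) :
    ∃ (e : ℕ) (F : MvPolynomial (Fin (N + 1)) ℂ), F.IsHomogeneous e ∧ deh i F = a := by
  induction a using MvPolynomial.induction_on with
  | C c => exact ⟨0, C c, isHomogeneous_C _ _, by simp [deh]⟩
  | add p q h h' =>
    obtain ⟨e, F, h1, rfl⟩ := h
    obtain ⟨e', G, h2, rfl⟩ := h'
    exact ⟨e + e', F * X i ^ e' + X i ^ e * G,
      (h1.mul (isHomogeneous_X_pow _ _)).add ((isHomogeneous_X_pow _ _).mul h2), by simp⟩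
  | mul_X p j h =>
    obtain ⟨e, F, h1, rfl⟩ := h
    exact ⟨e + 1, F * X (i.succAbove j), h1.mul (isHomogeneous_X _ _), by simp⟩

theorem homog2 (i : Fin (N + 1)) (a b : MvPolynomial (Fin N) ℂ) :
    ∃ (e : ℕ) (F G : MvPolynomial (Fin (N + 1)) ℂ), F.IsHomogeneous e ∧ G.IsHomogeneous e ∧
      deh i F = a ∧ deh i G = b := by
  obtain ⟨e, F, h1, rfl⟩ := homog i a
  obtain ⟨e', G, h2, rfl⟩ := homog i b
  exact ⟨e + e', F * X i ^ e', X i ^ e * G, h1.mul (isHomogeneous_X_pow _ _),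
    (isHomogeneous_X_pow _ _).mul h2, by simp, by simp⟩

theorem exists_chart (x : PP N) : ∃ i, x.rep i ≠ 0 := Function.ne_iff.1 x.rep_nonzero

theorem rep_mk (v : Fin (N + 1) → ℂ) (hv : v ≠ 0) (i : Fin (N + 1)) :
    (Projectivization.mk ℂ v hv).rep i = 0 ↔ v i = 0 := by
  simpa [zeroSet] using mk_mem_zeroSet (isHomogeneous_X ℂ i) v hv

variable {ξ : Fin (N + 1) → K} {x : PP N} {i : Fin (N + 1)} {V : ValuationSubring K}

theorem form_ne (hx : x ∈ var ξ) {G : MvPolynomial (Fin (N + 1)) ℂ} {e : ℕ}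
    (hG : G.IsHomogeneous e) (h : eval x.rep G ≠ 0) : aeval ξ G ≠ 0 := fun h0 => h (hx e G hG h0)

theorem coord_ne (hx : x ∈ var ξ) (hi : x.rep i ≠ 0) : ξ i ≠ 0 := by
  simpa using form_ne hx (isHomogeneous_X ℂ i) (by simpa using hi)

theorem ratio_of {g : K} {a b : MvPolynomial (Fin N) ℂ} (hi : ξ i ≠ 0)
    (hb : aeval (ch ξ i) b ≠ 0) (h : g * aeval (ch ξ i) b = aeval (ch ξ i) a) :
    ∃ (e : ℕ) (F G : MvPolynomial (Fin (N + 1)) ℂ), F.IsHomogeneous e ∧ G.IsHomogeneous e ∧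
      deh i F = a ∧ deh i G = b ∧ Ratio ξ g F G := by
  obtain ⟨e, F, G, h1, h2, rfl, rfl⟩ := homog2 i a b
  refine ⟨e, F, G, h1, h2, rfl, rfl, e, h1, h2, ?_, ?_⟩
  · rw [aeval_deh hi h2]
    exact mul_ne_zero (pow_ne_zero _ hi) hb
  · rw [aeval_deh hi h1, aeval_deh hi h2, ← h]; ring

theorem of_ratio {g : K} {F G : MvPolynomial (Fin (N + 1)) ℂ} (hi : ξ i ≠ 0) (h : Ratio ξ g F G) :
    aeval (ch ξ i) (deh i G) ≠ 0 ∧
      g * aeval (ch ξ i) (deh i G) = aeval (ch ξ i) (deh i F) := by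
  obtain ⟨e, h1, h2, h3, h4⟩ := h
  rw [aeval_deh hi h2] at h3 h4
  rw [aeval_deh hi h1] at h4
  exact ⟨right_ne_zero_of_mul h3, mul_left_cancel₀ (pow_ne_zero e hi) (by linear_combination h4)⟩

theorem den_ne (hx : x ∈ var ξ) (hi : x.rep i ≠ 0) {b : MvPolynomial (Fin N) ℂ}
    (hb : eval (ch x.rep i) b ≠ 0) : aeval (ch ξ i) b ≠ 0 := by
  obtain ⟨e, G, h1, rfl⟩ := homog i b
  have := form_ne hx h1 (by rw [eval_deh hi h1]; exact mul_ne_zero (pow_ne_zero _ hi) hb)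
  rw [aeval_deh (coord_ne hx hi) h1] at this
  exact right_ne_zero_of_mul this

theorem mem_aux (hx : x ∈ var ξ) (hi : x.rep i ≠ 0) (p : Prop) {g : K} :
    (∃ F G, Ratio ξ g F G ∧ eval x.rep G ≠ 0 ∧ (p → eval x.rep F = 0)) ↔
      ∃ a b : MvPolynomial (Fin N) ℂ, eval (ch x.rep i) b ≠ 0 ∧
        g * aeval (ch ξ i) b = aeval (ch ξ i) a ∧ (p → eval (ch x.rep i) a = 0) := by
  have h0 := coord_ne hx hi
  constructor
  · rintro ⟨F, G, h, h1, h2⟩
    refine ⟨deh i F, deh i G, ?_, (of_ratio h0 h).2, fun hp => ?_⟩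
    · obtain ⟨e, -, h3, -⟩ := h
      rw [eval_deh hi h3] at h1
      exact right_ne_zero_of_mul h1
    · obtain ⟨e, h3, -⟩ := h
      have h4 := h2 hp
      rw [eval_deh hi h3] at h4
      exact (mul_eq_zero.1 h4).resolve_left (pow_ne_zero _ hi)
  · rintro ⟨a, b, h1, h2, h3⟩
    obtain ⟨e, F, G, a1, a2, rfl, rfl, a3⟩ := ratio_of h0 (den_ne hx hi h1) h2
    refine ⟨F, G, a3, ?_, fun hp => ?_⟩
    · rw [eval_deh hi a2]; exact mul_ne_zero (pow_ne_zero _ hi) h1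
    · rw [eval_deh hi a1, h3 hp, mul_zero]

theorem mem_loc (hx : x ∈ var ξ) (hi : x.rep i ≠ 0) {g : K} :
    g ∈ loc ξ x ↔ ∃ a b : MvPolynomial (Fin N) ℂ, eval (ch x.rep i) b ≠ 0 ∧
      g * aeval (ch ξ i) b = aeval (ch ξ i) a := by
  have h := mem_aux hx hi False (g := g)
  simp only [false_imp_iff, and_true] at h
  exact h

theorem mem_mx (hx : x ∈ var ξ) (hi : x.rep i ≠ 0) {g : K} :
    g ∈ mx ξ x ↔ ∃ a b : MvPolynomial (Fin N) ℂ, eval (ch x.rep i) b ≠ 0 ∧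
      g * aeval (ch ξ i) b = aeval (ch ξ i) a ∧ eval (ch x.rep i) a = 0 := by
  have h := mem_aux hx hi True (g := g)
  simp only [true_imp_iff] at h
  exact h

theorem poly_mem_loc (hx : x ∈ var ξ) (hi : x.rep i ≠ 0) (a : MvPolynomial (Fin N) ℂ) :
    aeval (ch ξ i) a ∈ loc ξ x := (mem_loc hx hi).2 ⟨a, 1, by simp, by simp⟩

theorem div_mem_loc (hx : x ∈ var ξ) (hi : x.rep i ≠ 0) (a : MvPolynomial (Fin N) ℂ)
    {b : MvPolynomial (Fin N) ℂ} (hb : eval (ch x.rep i) b ≠ 0) :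
    aeval (ch ξ i) a / aeval (ch ξ i) b ∈ loc ξ x :=
  (mem_loc hx hi).2 ⟨a, b, hb, div_mul_cancel₀ _ (den_ne hx hi hb)⟩

theorem poly_mem (hx : x ∈ center ξ V) (hi : x.rep i ≠ 0) (a : MvPolynomial (Fin N) ℂ) :
    aeval (ch ξ i) a ∈ V := hx.2 (poly_mem_loc hx.1 hi a)

theorem const_mem (hx : x ∈ center ξ V) (c : ℂ) : algebraMap ℂ K c ∈ V := by
  obtain ⟨i, hi⟩ := exists_chart x
  simpa using poly_mem hx hi (C c)

theorem coord_mem (hx : x ∈ center ξ V) (hi : x.rep i ≠ 0) (a : Fin (N + 1)) : ξ a / ξ i ∈ V := by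
  refine i.succAboveCases ?_ (fun j => ?_) a
  · rw [div_self (coord_ne hx.1 hi)]; exact V.one_mem
  · simpa [ch] using poly_mem hx hi (X j)

theorem val_poly (hx : x ∈ center ξ V) (hi : x.rep i ≠ 0) {b : MvPolynomial (Fin N) ℂ}
    (hb : eval (ch x.rep i) b ≠ 0) : V.valuation (aeval (ch ξ i) b) = 1 := by
  refine val_eq_one (den_ne hx.1 hi hb) (poly_mem hx hi b) (hx.2 ?_)
  simpa using div_mem_loc hx.1 hi 1 hb

theorem val_form (hx : x ∈ center ξ V) (hi : x.rep i ≠ 0) {G : MvPolynomial (Fin (N + 1)) ℂ}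
    {e : ℕ} (hG : G.IsHomogeneous e) (h : eval x.rep G ≠ 0) :
    V.valuation (aeval ξ G) = V.valuation (ξ i) ^ e := by
  rw [eval_deh hi hG] at h
  rw [aeval_deh (coord_ne hx.1 hi) hG, map_mul, val_poly hx hi (right_ne_zero_of_mul h), mul_one,
    map_pow]

theorem val_coord (hx : x ∈ center ξ V) (hi : x.rep i ≠ 0) {a : Fin (N + 1)} (ha : x.rep a ≠ 0) :
    V.valuation (ξ a) = V.valuation (ξ i) := by
  simpa using val_form hx hi (isHomogeneous_X ℂ a) (by simpa using ha)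

theorem val_coord' {x' : PP N} {i' : Fin (N + 1)} (hx : x ∈ center ξ V) (hi : x.rep i ≠ 0)
    (hx' : x' ∈ center ξ V) (hi' : x'.rep i' ≠ 0) : V.valuation (ξ i') = V.valuation (ξ i) := by
  have h1 := coord_ne hx.1 hi
  have h2 := coord_ne hx'.1 hi'
  have h3 := val_eq_one (div_ne_zero h2 h1) (coord_mem hx hi i')
    (by rw [inv_div]; exact coord_mem hx' hi' i)
  rwa [map_div₀, div_eq_one_iff_eq ((Valuation.ne_zero_iff _).2 h1)] at h3

/-- A prime divisor is a localization of the coordinate ring of every chart that meets it. -/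
theorem prime_loc (hV : IsPrimeDiv ξ V) (hx : x ∈ center ξ V) (hi : x.rep i ≠ 0) :
    ∀ g ∈ V, ∃ a b : MvPolynomial (Fin N) ℂ, V.valuation (aeval (ch ξ i) b) = 1 ∧
      g * aeval (ch ξ i) b = aeval (ch ξ i) a := by
  obtain ⟨-, x', hx', h⟩ := hV
  intro g hg
  obtain ⟨a, ⟨F, G, ⟨e, a1, a2, a3, a4⟩, a5⟩, b, ⟨F', G', ⟨e', b1, b2, b3, b4⟩, b5⟩, h1, h2⟩ :=
    h g hg
  obtain ⟨i', hi'⟩ := exists_chart x'
  have h0 := coord_ne hx.1 hi
  have h3 := val_coord' hx hi hx' hi'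
  have h4 : V.valuation (aeval ξ (F' * G)) = V.valuation (ξ i) ^ (e' + e) := by
    rw [map_mul, map_mul, ← b4, map_mul, h1, one_mul, val_form hx' hi' b2 b5,
      val_form hx' hi' a2 a5, h3, pow_add]
  have h5 : V.valuation (ξ i) ^ (e' + e) ≠ 0 := pow_ne_zero _ ((Valuation.ne_zero_iff _).2 h0)
  have h6 : Ratio ξ g (G' * F) (F' * G) := by
    refine ⟨e' + e, b2.mul a1, b1.mul a2, fun h7 => h5 (by rw [← h4, h7, map_zero]), ?_⟩
    simp only [map_mul, ← a4, ← b4, ← h2]; ring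
  refine ⟨_, _, ?_, (of_ratio h0 h6).2⟩
  rw [aeval_deh h0 (b1.mul a2), map_mul, map_pow] at h4
  exact mul_left_cancel₀ h5 (h4.trans (mul_one _).symm)

theorem taylor (c : Fin N → ℂ) (a : MvPolynomial (Fin N) ℂ) :
    ∃ q : Fin N → MvPolynomial (Fin N) ℂ, a = C (eval c a) + ∑ j, q j * (X j - C (c j)) := by
  classical
  induction a using MvPolynomial.induction_on with
  | C r => exact ⟨0, by simp⟩
  | add p q h h' =>
    obtain ⟨u, hu⟩ := h
    obtain ⟨w, hw⟩ := h'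
    refine ⟨u + w, ?_⟩
    simp only [Pi.add_apply, add_mul, Finset.sum_add_distrib, map_add]
    linear_combination hu + hw
  | mul_X p l h =>
    obtain ⟨u, hu⟩ := h
    refine ⟨fun j => u j * X l + if j = l then C (eval c p) else 0, ?_⟩
    simp only [add_mul, Finset.sum_add_distrib, ite_mul, zero_mul, Finset.sum_ite_eq',
      Finset.mem_univ, if_true, map_mul, eval_X]
    have e : ∑ j, u j * X l * (X j - C (c j)) = (∑ j, u j * (X j - C (c j))) * X l := by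
      rw [Finset.sum_mul]
      exact Finset.sum_congr rfl fun j _ => by ring
    rw [e]
    linear_combination hu * X l

theorem int_mem (hx : x ∈ center ξ V) {g : K} (hg : IsIntegral (loc ξ x) g) : g ∈ V := by
  have : IsIntegrallyClosedIn V.toSubring K := inferInstanceAs (IsIntegrallyClosedIn V K)
  exact (Subring.integralClosure_subring_le_iff (S := loc ξ x) (T := V.toSubring)).2 hx.2 hg

end Pool.Agent.MP_776d16_ag.H79
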