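import Pool.Agent.MP_776d16_ag.H79.Alg

/-! The cone over the Fermat cubic curve is normal. -/

namespace Pool.Agent.MP_776d16_ag.H79

open MvPolynomial KaehlerDifferential Pool.Agent.MP_776d16_ag.H55

section Tm

variable {K B : Type} [Field K] [CommRing B] {φ : B →+* K} {w : K} {h : B}

/-- Combinations of `1, w, w ^ 2`. -/
def Tm (φ : B →+* K) (w u : K) : Prop := ∃ a b c : B, u = φ a + φ b * w + φ c * w ^ 2

theorem Tm.of (b : B) : Tm φ w (φ b) := ⟨b, 0, 0, by simp⟩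

theorem Tm.gen : Tm φ w w := ⟨0, 1, 0, by simp⟩

theorem Tm.add {u v : K} (h1 : Tm φ w u) (h2 : Tm φ w v) : Tm φ w (u + v) := by
  obtain ⟨a, b, c, rfl⟩ := h1
  obtain ⟨a', b', c', rfl⟩ := h2
  exact ⟨a + a', b + b', c + c', by simp only [map_add]; ring⟩

theorem Tm.mul (hw : w ^ 3 = -φ h) {u v : K} (h1 : Tm φ w u) (h2 : Tm φ w v) : Tm φ w (u * v) := by
  obtain ⟨a, b, c, rfl⟩ := h1
  obtain ⟨a', b', c', rfl⟩ := h2
  refine ⟨a * a' - h * (b * c' + c * b'), a * b' + b * a' - h * (c * c'),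
    a * c' + b * b' + c * a', ?_⟩
  simp only [map_add, map_sub, map_mul]
  linear_combination (φ b * φ c' + φ c * φ b' + φ c * φ c' * w) * hw

theorem Tm.den (hw : w ^ 3 = -φ h) {σ : K →+* K} {ζ : K} (h1 : ∀ b, σ (φ b) = φ b)
    (h2 : σ w = ζ * w) (h3 : σ ζ = ζ) (h4 : ζ ^ 2 + ζ + 1 = 0) {g α β : K} (hα : Tm φ w α)
    (hβ : Tm φ w β) (h0 : β ≠ 0) (e : g * β = α) : ∃ d : B, d ≠ 0 ∧ Tm φ w (g * φ d) := by
  obtain ⟨a, b, c, rfl⟩ := hβ
  have e1 : σ (φ a + φ b * w + φ c * w ^ 2) * σ (σ (φ a + φ b * w + φ c * w ^ 2)) =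
      φ (a ^ 2 + h * b * c) + φ (-(h * c ^ 2) - a * b) * w + φ (b ^ 2 - a * c) * w ^ 2 := by
    simp only [map_add, map_sub, map_mul, map_pow, map_neg, h1, h2, h3]
    have h5 : ζ ^ 3 = 1 := by linear_combination (ζ - 1) * h4
    linear_combination (φ a * φ b * w + φ a * φ c * w ^ 2 + φ b * φ c * w ^ 3) * h4 +
      (φ a * φ c * w ^ 2 * ζ + φ b ^ 2 * w ^ 2 + φ b * φ c * w ^ 3 * (ζ ^ 2 + ζ) +
        φ c ^ 2 * w ^ 4 * (ζ ^ 3 + 1)) * h5 + (φ c ^ 2 * w - φ b * φ c) * hw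
  have e2 : (φ a + φ b * w + φ c * w ^ 2) *
      (φ (a ^ 2 + h * b * c) + φ (-(h * c ^ 2) - a * b) * w + φ (b ^ 2 - a * c) * w ^ 2) =
      φ (a ^ 3 - h * b ^ 3 + h ^ 2 * c ^ 3 + 3 * h * a * b * c) := by
    simp only [map_add, map_sub, map_mul, map_pow, map_neg, map_ofNat]
    linear_combination (φ b ^ 3 - 3 * φ a * φ b * φ c - φ h * φ c ^ 3 + φ a * φ b * φ c +
      (φ c * φ b ^ 2 - φ a * φ c ^ 2 - φ c * φ b ^ 2 + φ c * φ b ^ 2) * w -
        φ a * φ b * φ c + φ a * φ b * φ c) * hw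
  refine ⟨_, fun e0 => ?_, by
    rw [← e2, ← mul_assoc, e]; exact hα.mul hw ⟨_, _, _, rfl⟩⟩
  rw [e0, map_zero, ← e1] at e2
  exact mul_ne_zero h0 (mul_ne_zero ((map_ne_zero σ).2 h0)
    ((map_ne_zero σ).2 ((map_ne_zero σ).2 h0))) e2

theorem Tm.of_int [IsDomain B] [UniqueFactorizationMonoid B] (hφ : Function.Injective φ)
    (hh : h ≠ 0) (hs : ∀ p : B, Prime p → ¬ p ^ 2 ∣ h) (hw : w ^ 3 = -φ h) {σ : K →+* K}
    {z t : B} (h1 : ∀ b, σ (φ b) = φ b) (h2 : σ w = φ z * w) (h4 : φ z ^ 2 + φ z + 1 = 0)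
    (h6 : 3 * φ t = 1) {g : K} {d : B} (hd : d ≠ 0) (hg : Tm φ w (g * φ d))
    (hi : ∀ V : ValuationSubring K, (∀ b, φ b ∈ V) → g ∈ V) : Tm φ w g := by
  obtain ⟨a, b, c, e⟩ := hg
  have hd' : φ d ≠ 0 := fun e => hd (hφ (e.trans (map_zero φ).symm))
  have e1 := congrArg σ e
  simp only [map_add, map_mul, map_pow, h1, h2] at e1
  have e2 := congrArg σ e1
  simp only [map_add, map_mul, map_pow, h1, h2] at e2
  have hi1 : ∀ V : ValuationSubring K, (∀ b, φ b ∈ V) → σ g ∈ V := fun V hV =>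
    hi (V.comap σ) fun b => by rw [ValuationSubring.mem_comap, h1]; exact hV b
  have hi2 : ∀ V : ValuationSubring K, (∀ b, φ b ∈ V) → σ (σ g) ∈ V := fun V hV =>
    hi1 (V.comap σ) fun b => by rw [ValuationSubring.mem_comap, h1]; exact hV b
  have h5 : φ z ^ 3 = 1 := by linear_combination (φ z - 1) * h4
  have key : ∀ (V : ValuationSubring K), (∀ b, φ b ∈ V) → ∀ u v : B,
      φ t * (g + φ u * σ g + φ v * σ (σ g)) ∈ V := fun V hV u v =>
    mul_mem (hV t) (add_mem (add_mem (hi V hV) (mul_mem (hV u) (hi1 V hV)))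
      (mul_mem (hV v) (hi2 V hV)))
  obtain ⟨a', rfl⟩ : d ∣ a := dvd_of_int hφ hh hs hd hw (e := 0) (by norm_num) fun V hV => by
    convert key V hV 1 1 using 1
    rw [div_eq_iff hd', map_one]
    linear_combination (-φ t) * (e + e1 + e2) - φ a * h6 -
      φ t * (φ b * w + φ c * w ^ 2) * h4 - φ t * φ c * w ^ 2 * φ z * h5
  obtain ⟨b', rfl⟩ : d ∣ b := dvd_of_int hφ hh hs hd hw (e := 1) (by norm_num) fun V hV => by
    convert key V hV (z ^ 2) z using 1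
    rw [div_eq_iff hd', map_pow]
    linear_combination (-φ t) * (e + φ z ^ 2 * e1 + φ z * e2) - φ b * w * h6 -
      φ t * (φ (d * a') + φ c * w ^ 2) * h4 -
      φ t * (2 * φ b * w + φ c * w ^ 2 * (φ z + φ z ^ 2)) * h5
  obtain ⟨c', rfl⟩ : d ∣ c := dvd_of_int hφ hh hs hd hw (e := 2) (by norm_num) fun V hV => by
    convert key V hV z (z ^ 2) using 1
    rw [div_eq_iff hd', map_pow]
    linear_combination (-φ t) * (e + φ z * e1 + φ z ^ 2 * e2) - φ c * w ^ 2 * h6 -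
      φ t * (φ (d * a') + φ (d * b') * w) * h4 -
      φ t * (φ (d * b') * w * φ z + φ c * w ^ 2 * (2 + φ z ^ 3)) * h5
  refine ⟨a', b', c', mul_right_cancel₀ hd' ?_⟩
  simp only [map_mul] at e
  linear_combination e

end Tm

/-- The Fermat cubic in the variables `T`. -/
noncomputable def cub {σ : Type} (T : Finset σ) : MvPolynomial σ ℂ := ∑ a ∈ T, X a ^ 3

theorem cub_homog {σ : Type} (T : Finset σ) : (cub T).IsHomogeneous 3 :=
  IsHomogeneous.sum _ _ _ fun _ _ => isHomogeneous_X_pow _ _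

variable {K : Type} [Field K] [Algebra ℂ K] {n : ℕ}

/-- `ξ` is a generic point of the cone. -/
structure Cone (T : Finset (Fin (n + 2))) (ξ : Fin (n + 2) → K) : Prop where
  card : T.card = 3
  zero : 0 ∉ T
  ne : ∀ a, ξ a ≠ 0
  rel : ∑ a ∈ T, ξ a ^ 3 = 0
  kp : ∀ (e : ℕ) (F : MvPolynomial (Fin (n + 2)) ℂ), F.IsHomogeneous e → aeval ξ F = 0 → cub T ∣ F
  gen : ∀ g : K, ∃ F G, Ratio ξ g F G
  sig : ∀ c ∈ T, ∃ (ζ : ℂ) (σ : K →ₐ[ℂ] K), ζ ^ 2 + ζ + 1 = 0 ∧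
    ∀ a, σ (ξ a) = (if a = c then algebraMap ℂ K ζ else 1) * ξ a

variable {T : Finset (Fin (n + 2))} {ξ : Fin (n + 2) → K} (h : Cone T ξ) {x : PP (n + 1)}
  {i c : Fin (n + 2)} {V : ValuationSubring K}

include h

theorem Cone.tri (hc : c ∈ T) : ∃ a b, a ≠ c ∧ b ≠ c ∧ a ≠ b ∧ T = {c, a, b} := by
  obtain ⟨a, b, h1, h2⟩ := Finset.card_eq_two.1
    (show (T.erase c).card = 2 by rw [Finset.card_erase_of_mem hc, h.card])
  refine ⟨a, b, Finset.ne_of_mem_erase (h2 ▸ Finset.mem_insert_self _ _),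
    Finset.ne_of_mem_erase (s := T) (by rw [h2]; simp), h1, ?_⟩
  rw [← h2, Finset.insert_erase hc]

omit h in
theorem sum_tri {σ M : Type} [DecidableEq σ] [AddCommMonoid M] {c a b : σ} (h1 : a ≠ c)
    (h2 : b ≠ c) (h3 : a ≠ b) (f : σ → M) : ∑ x ∈ ({c, a, b} : Finset σ), f x = f c + f a + f b := by
  rw [Finset.sum_insert (by simp [h1.symm, h2.symm]), Finset.sum_pair h3, add_assoc]

theorem Cone.mem_var : x ∈ var ξ ↔ ∑ a ∈ T, x.rep a ^ 3 = 0 := by
  constructor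
  · intro hx
    simpa [cub] using hx 3 _ (cub_homog T) (by simpa [cub] using h.rel)
  · intro hx e F hF h0
    obtain ⟨Q, rfl⟩ := h.kp e F hF h0
    rw [map_mul, show eval x.rep (cub T) = 0 by simpa [cub] using hx, zero_mul]

theorem Cone.indep (hc : c ∈ T) (j : Fin (n + 1)) :
    AlgebraicIndependent ℂ (ch (ξ ∘ c.succAbove) j) := by
  classical
  refine (injective_iff_map_eq_zero _).2 fun a ha => ?_
  obtain ⟨e, F, h1, rfl⟩ := homog j a
  have h2 : aeval ξ (rename c.succAbove F) = 0 := by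
    rw [aeval_rename, aeval_deh (i := j) (h.ne _) h1, ha, mul_zero]
  obtain ⟨Q, hQ⟩ := h.kp e _ h1.rename_isHomogeneous h2
  have h3 : F = 0 := MvPolynomial.funext fun v => by
    obtain ⟨w, hw⟩ := IsAlgClosed.exists_pow_nat_eq
      (-∑ a ∈ T.erase c, (c.insertNth (α := fun _ => ℂ) 0 v a) ^ 3) (n := 3) (by norm_num)
    have h4 := congrArg (eval (Function.update (c.insertNth (α := fun _ => ℂ) 0 v) c w)) hQ
    have h5 : Function.update (c.insertNth (α := fun _ => ℂ) 0 v) c w ∘ c.succAbove = v := by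
      funext l
      simp
    have h6 : eval (Function.update (c.insertNth (α := fun _ => ℂ) 0 v) c w) (cub T) = 0 := by
      simp only [cub, map_sum, map_pow, eval_X]
      rw [← Finset.add_sum_erase _ _ hc, Function.update_self, hw, neg_add_eq_sub, sub_eq_zero]
      exact Finset.sum_congr rfl fun a ha => by
        rw [Function.update_of_ne (Finset.ne_of_mem_erase ha)]
    rwa [eval_rename, h5, map_mul, h6, zero_mul] at h4
  rw [h3, map_zero]

theorem Cone.cube (hc : c ∈ T) (j : Fin (n + 1)) : ∃ g : MvPolynomial (Fin n) ℂ,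
    (∀ p, Prime p → ¬ p ^ 2 ∣ g) ∧ g ≠ 0 ∧
      (ξ c / ξ (c.succAbove j)) ^ 3 = -aeval (ch (ξ ∘ c.succAbove) j) g := by
  have key : ∀ a b : Fin (n + 1), a ≠ b → b ≠ j → ∀ p, Prime p →
      ¬ p ^ 2 ∣ deh j (X a) ^ 3 + deh j (X b) ^ 3 := by
    intro a b h1 h2 p hp
    obtain ⟨v, rfl⟩ := Fin.exists_succAbove_eq h2
    rw [deh_succ]
    refine sqfree ?_ hp
    by_cases e : a = j
    · exact Or.inl (by rw [e, deh_self])
    · obtain ⟨u, rfl⟩ := Fin.exists_succAbove_eq e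
      exact Or.inr ⟨u, fun e => h1 (by rw [e]), deh_succ _ _⟩
  obtain ⟨a, b, h1, h2, h3, h4⟩ := h.tri hc
  have h5 := h.rel
  rw [h4, sum_tri h1 h2 h3] at h5
  obtain ⟨a, rfl⟩ := Fin.exists_succAbove_eq h1
  obtain ⟨b, rfl⟩ := Fin.exists_succAbove_eq h2
  have h6 : a ≠ b := fun e => h3 (by rw [e])
  have h7 : ∀ p, Prime p → ¬ p ^ 2 ∣ deh j (X a) ^ 3 + deh j (X b) ^ 3 := by
    by_cases e : b = j
    · rw [add_comm]; exact key b a h6.symm (e ▸ h6)
    · exact key a b h6 e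
  refine ⟨_, h7, fun e => ?_, ?_⟩
  · obtain ⟨v⟩ : Nonempty (Fin n) := by
      by_cases e1 : a = j
      · exact ⟨(Fin.exists_succAbove_eq (x := b) (y := j) (e1 ▸ h6.symm)).choose⟩
      · exact ⟨(Fin.exists_succAbove_eq e1).choose⟩
    exact h7 _ (X_prime (i := v)) (e ▸ dvd_zero _)
  · have h8 := h.ne (c.succAbove j)
    rw [map_add, map_pow, map_pow, aeval_deh_X (ξ := ξ ∘ c.succAbove) h8,
      aeval_deh_X (ξ := ξ ∘ c.succAbove) h8]
    simp only [Function.comp_apply]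
    field_simp
    linear_combination h5

omit h in
theorem tm_poly {j : Fin (n + 1)} {g : MvPolynomial (Fin n) ℂ} (h0 : ξ (c.succAbove j) ≠ 0)
    (hw : (ξ c / ξ (c.succAbove j)) ^ 3 = -aeval (ch (ξ ∘ c.succAbove) j) g)
    (a : MvPolynomial (Fin (n + 1)) ℂ) :
    Tm ((aeval (ch (ξ ∘ c.succAbove) j) : MvPolynomial (Fin n) ℂ →ₐ[ℂ] K) :
      MvPolynomial (Fin n) ℂ →+* K) (ξ c / ξ (c.succAbove j))
      (aeval (ch ξ (c.succAbove j)) a) := by
  induction a using MvPolynomial.induction_on with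
  | C r => exact ⟨C r, 0, 0, by simp⟩
  | add p q h h' => rw [map_add]; exact h.add h'
  | mul_X p l h =>
    rw [map_mul, aeval_X, ch]
    refine h.mul hw ?_
    generalize (c.succAbove j).succAbove l = b
    refine c.succAboveCases ?_ (fun b => ?_) b
    · exact Tm.gen
    · have := aeval_deh_X (ξ := ξ ∘ c.succAbove) (i := j) h0 b
      simp only [Function.comp_apply] at this
      rw [← this]
      exact Tm.of _

theorem Cone.sigma (hc : c ∈ T) (j : Fin (n + 1)) : ∃ (ζ : ℂ) (σ : K →+* K),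
    (∀ b : MvPolynomial (Fin n) ℂ, σ (aeval (ch (ξ ∘ c.succAbove) j) b) =
      aeval (ch (ξ ∘ c.succAbove) j) b) ∧
    σ (ξ c / ξ (c.succAbove j)) = algebraMap ℂ K ζ * (ξ c / ξ (c.succAbove j)) ∧
    algebraMap ℂ K ζ ^ 2 + algebraMap ℂ K ζ + 1 = 0 := by
  obtain ⟨ζ, σ, h1, h2⟩ := h.sig c hc
  have h3 : ∀ b, σ (ξ (c.succAbove b)) = ξ (c.succAbove b) := fun b => by
    rw [h2, if_neg (Fin.succAbove_ne c b), one_mul]
  refine ⟨ζ, σ, fun b => ?_, ?_, ?_⟩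
  · have : σ.comp (aeval (ch (ξ ∘ c.succAbove) j)) = aeval (ch (ξ ∘ c.succAbove) j) :=
      MvPolynomial.algHom_ext fun l => by simp [ch, h3]
    exact DFunLike.congr_fun this b
  · rw [map_div₀, RingHom.coe_coe, h3, h2, if_pos rfl, mul_div_assoc]
  · simpa using congrArg (algebraMap ℂ K) h1

theorem Cone.den (hc : c ∈ T) (j : Fin (n + 1)) (g : K) : ∃ d : MvPolynomial (Fin n) ℂ, d ≠ 0 ∧
    Tm ((aeval (ch (ξ ∘ c.succAbove) j) : MvPolynomial (Fin n) ℂ →ₐ[ℂ] K) :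
      MvPolynomial (Fin n) ℂ →+* K) (ξ c / ξ (c.succAbove j))
      (g * aeval (ch (ξ ∘ c.succAbove) j) d) := by
  obtain ⟨q, -, -, hw⟩ := h.cube hc j
  obtain ⟨ζ, σ, h1, h2, h3⟩ := h.sigma hc j
  obtain ⟨F, G, h4⟩ := h.gen g
  obtain ⟨h5, h6⟩ := of_ratio (h.ne (c.succAbove j)) h4
  exact Tm.den hw h1 h2 (by simpa using h1 (C ζ)) h3 (tm_poly (h.ne _) hw _)
    (tm_poly (h.ne _) hw _) h5 h6

theorem Cone.basis (hc : c ∈ T) (j : Fin (n + 1)) :
    IsTranscendenceBasis ℂ (ch (ξ ∘ c.succAbove) j) := by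
  refine (h.indep hc j).isTranscendenceBasis_iff_isAlgebraic.2 ⟨fun g => ?_⟩
  obtain ⟨q, -, -, hw⟩ := h.cube hc j
  obtain ⟨d, h1, a, b, e, h2⟩ := h.den hc j g
  have key : ∀ a : MvPolynomial (Fin n) ℂ,
      IsAlgebraic (Algebra.adjoin ℂ (Set.range (ch (ξ ∘ c.succAbove) j)))
        (aeval (ch (ξ ∘ c.succAbove) j) a) := fun a =>
    isAlgebraic_algebraMap (⟨aeval _ a, by
      rw [Algebra.adjoin_range_eq_range_aeval]; exact ⟨a, rfl⟩⟩ :
        Algebra.adjoin ℂ (Set.range (ch (ξ ∘ c.succAbove) j)))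
  have h3 : IsAlgebraic (Algebra.adjoin ℂ (Set.range (ch (ξ ∘ c.succAbove) j)))
      (ξ c / ξ (c.succAbove j)) :=
    IsAlgebraic.of_pow (by norm_num : 0 < 3) (by rw [hw]; exact (key q).neg)
  refine IsAlgebraic.of_mul (mem_nonZeroDivisors_of_ne_zero fun e0 =>
    h1 (h.indep hc j (e0.trans (map_zero _).symm))) (key d) ?_
  rw [mul_comm, h2]
  exact ((key a).add ((key b).mul h3)).add ((key e).mul (h3.pow 2))

theorem Cone.exists_ne (i : Fin (n + 2)) : ∃ c ∈ T, ∃ j, c.succAbove j = i := by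
  obtain ⟨c, hc, h1⟩ := Finset.exists_mem_ne (by rw [h.card]; norm_num : 1 < T.card) i
  exact ⟨c, hc, Fin.exists_succAbove_eq h1.symm⟩

theorem Cone.normal : IsNormalVar n ξ := by
  refine ⟨fun e => h.ne 0 (congrFun e 0), h.gen, ?_, fun x hx => ?_⟩
  · obtain ⟨c, hc, j, -⟩ := h.exists_ne 0
    simpa using (h.basis hc j).cardinalMk_eq_trdeg.symm
  obtain ⟨i, hi⟩ := exists_chart x
  obtain ⟨c, hc, j, rfl⟩ := h.exists_ne i
  refine Subring.isIntegrallyClosedIn_iff.2 fun g hg => ?_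
  obtain ⟨s, h1, h2⟩ := exists_mult hx hi hg
  obtain ⟨q, a1, a2, hw⟩ := h.cube hc j
  obtain ⟨ζ, σ, b1, b2, b3⟩ := h.sigma hc j
  obtain ⟨d, c1, c2⟩ := h.den hc j (aeval (ch ξ (c.succAbove j)) s * g)
  obtain ⟨a, b, e, h3⟩ := Tm.of_int (z := C ζ) (t := C (1 / 3)) (h.indep hc j) a2 a1 hw b1
    (by simpa using b2) (by simpa using b3)
    (by
      have := congrArg (algebraMap ℂ K) (show (3 : ℂ) * (1 / 3) = 1 by norm_num)
      rw [map_mul, map_ofNat, map_one] at this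
      simpa using this) c1 c2 fun V hV => h2 V fun a => by
      have h4 : ξ c / ξ (c.succAbove j) ∈ V := by
        rw [← V.valuation_le_one_iff, ← pow_le_one_iff_of_nonneg zero_le (n := 3) (by norm_num),
          ← map_pow, hw, V.valuation_le_one_iff]
        exact neg_mem (hV q)
      obtain ⟨u, v, w, h5⟩ := tm_poly (h.ne _) hw a
      rw [h5]
      exact add_mem (add_mem (hV u) (mul_mem (hV v) h4)) (mul_mem (hV w) (pow_mem h4 2))
  have h4 : ∀ a, ξ a / ξ (c.succAbove j) ∈ loc ξ x := fun a => by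
    rw [← aeval_deh_X (h.ne _)]
    exact poly_mem_loc hx hi _
  have h5 : ∀ a : MvPolynomial (Fin n) ℂ, aeval (ch (ξ ∘ c.succAbove) j) a ∈ loc ξ x :=
    aeval_mem (fun r => by simpa using poly_mem_loc hx hi (C r)) fun l => h4 _
  have h6 : g = aeval (ch ξ (c.succAbove j)) s * g *
      (aeval (ch ξ (c.succAbove j)) (1 : MvPolynomial (Fin (n + 1)) ℂ) /
        aeval (ch ξ (c.succAbove j)) s) := by
    have := den_ne hx hi h1
    rw [map_one]; field_simp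
  rw [h6, h3]
  exact mul_mem (add_mem (add_mem (h5 a) (mul_mem (h5 b) (h4 c)))
    (mul_mem (h5 e) (pow_mem (h4 c) 2))) (div_mem_loc hx hi 1 h1)

end Pool.Agent.MP_776d16_ag.H79
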