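import Pool.Agent.MP_776d16_ag.H79.Cone

/-! The canonical divisor of the cone over the Fermat cubic curve. -/

namespace Pool.Agent.MP_776d16_ag.H79

open MvPolynomial KaehlerDifferential Pool.Agent.MP_776d16_ag.H55

variable {K : Type} [Field K] [Algebra ℂ K] {n : ℕ}

theorem Cmb.sum {M ι : Type} [AddCommGroup M] [Module K M] {S : Subring K} {w : Fin n → M}
    (s : Finset ι) {v : ι → M} (h : ∀ a ∈ s, Cmb S w (v a)) : Cmb S w (∑ a ∈ s, v a) :=
  Finset.sum_induction _ (Cmb S w) (fun _ _ => Cmb.add) Cmb.zero h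

theorem Cmb.neg {M : Type} [AddCommGroup M] [Module K M] {S : Subring K} {w : Fin n → M}
    {v : M} (h : Cmb S w v) : Cmb S w (-v) := by
  simpa using Cmb.zero.sub h

/-- The residue form. -/
noncomputable def om (ξ : Fin (n + 2) → K) (z : Fin (n + 2)) (k : ℕ) (c : Fin (n + 2)) :
    ⋀[K]^n Ω[K⁄ℂ] :=
  ((∏ a ∈ Finset.univ.erase z, ξ a) / (ξ c ^ 3 * ξ 0 ^ k)) • lf (ξ ∘ c.succAbove) 0

variable {T : Finset (Fin (n + 2))} {ξ : Fin (n + 2) → K} (h : Cone T ξ) {x : PP (n + 1)}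
  {i c : Fin (n + 2)} {V : ValuationSubring K}

include h

theorem Cone.lf_ne (hc : c ∈ T) : lf (ξ ∘ c.succAbove) 0 ≠ 0 :=
  H79.lf_ne (fun _ => h.ne _) (dw_ne (h.basis hc 0))

theorem Cone.om_ne (hc : c ∈ T) (z : Fin (n + 2)) (k : ℕ) : om ξ z k c ≠ 0 :=
  smul_ne_zero (div_ne_zero (Finset.prod_ne_zero_iff.2 fun a _ => h.ne a)
    (mul_ne_zero (pow_ne_zero _ (h.ne _)) (pow_ne_zero _ (h.ne _)))) (h.lf_ne hc)

omit h in
theorem sum_D {ι : Type} {s : Finset ι} {y : ι → K} (h : ∑ a ∈ s, y a ^ 3 = 0) :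
    ∑ a ∈ s, y a ^ 2 • D ℂ K (y a) = 0 := by
  have h1 := congrArg (D ℂ K) h
  rw [map_sum, map_zero] at h1
  have h3 : (3 : K) ≠ 0 := by
    have := (map_ne_zero (algebraMap ℂ K)).2 (show (3 : ℂ) ≠ 0 by norm_num)
    rwa [map_ofNat] at this
  refine (smul_eq_zero.1 (?_ : (3 : K) • ∑ a ∈ s, y a ^ 2 • D ℂ K (y a) = 0)).resolve_left h3
  rw [Finset.smul_sum, ← h1]
  refine Finset.sum_congr rfl fun a _ => ?_
  rw [Derivation.leibniz_pow, ← Nat.cast_smul_eq_nsmul K]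
  norm_num

theorem Cone.om_unit (hc : c ∈ T) {c' : Fin (n + 2)} (hc' : c' ∈ T) (z : Fin (n + 2)) (k : ℕ)
    (V : ValuationSubring K) : ∃ a : K, V.valuation a = 1 ∧ om ξ z k c = a • om ξ z k c' := by
  classical
  let s : Fin (n + 2) → K := fun a => if a ∈ T then ξ a ^ 3 else 1
  let e : Fin (n + 2) → Ω[K⁄ℂ] := fun a =>
    s a • ((ξ a)⁻¹ • D ℂ K (ξ a) - (ξ 0)⁻¹ • D ℂ K (ξ 0))
  have hs : ∀ a, s a ≠ 0 := fun a => by
    simp only [s]
    split_ifs
    exacts [pow_ne_zero _ (h.ne a), one_ne_zero]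
  have h1 : ∑ a ∈ T, e a = 0 := by
    have e1 : ∀ a ∈ T, e a = ξ a ^ 2 • D ℂ K (ξ a) - ξ a ^ 3 • ((ξ 0)⁻¹ • D ℂ K (ξ 0)) := by
      intro a ha
      have := h.ne a
      simp only [e, s, if_pos ha, smul_sub, smul_smul]
      congr 2
      field_simp
    rw [Finset.sum_congr rfl e1, Finset.sum_sub_distrib, sum_D h.rel, ← Finset.sum_smul, h.rel,
      zero_smul, sub_zero]
  have h2 : ∀ c ∈ T, ∀ a, Cmb V.toSubring (fun j : Fin n => e (c.succAbove j.succ)) (e a) := by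
    intro c hc
    have h3 : ∀ a, a ≠ c → Cmb V.toSubring (fun j : Fin n => e (c.succAbove j.succ)) (e a) := by
      intro a ha
      obtain ⟨b, rfl⟩ := Fin.exists_succAbove_eq ha
      refine Fin.cases ?_ (fun j => Cmb.self j) b
      rw [Fin.succAbove_ne_zero_zero fun e0 => h.zero (e0 ▸ hc)]
      simpa [e] using Cmb.zero
    intro a
    by_cases ha : a = c
    · rw [← Finset.add_sum_erase _ _ hc] at h1
      rw [ha, eq_neg_of_add_eq_zero_left h1]
      exact (Cmb.sum _ fun b hb => h3 b (Finset.ne_of_mem_erase hb)).neg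
    · exact h3 a ha
  have h4 : ∀ c ∈ T, exteriorPower.ιMulti K n (fun j : Fin n => e (c.succAbove j.succ)) =
      ((∏ a, s a) / ξ c ^ 3) • lf (ξ ∘ c.succAbove) 0 := by
    intro c hc
    have h0 : c.succAbove 0 = 0 := Fin.succAbove_ne_zero_zero fun e0 => h.zero (e0 ▸ hc)
    rw [AlternatingMap.map_smul_univ, lf]
    congr 1
    · rw [Fin.prod_univ_succAbove _ c, Fin.prod_univ_succ, h0]
      simp only [s, if_pos hc, if_neg h.zero, one_mul]
      rw [mul_div_cancel_left₀ _ (pow_ne_zero _ (h.ne c))]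
    · congr 1
      funext j
      simp only [ch, Function.comp_apply]
      rw [dlog_div (h.ne _) (h.ne _)]
      simp [h0]
  have h5 : (∏ a, s a) ≠ 0 := Finset.prod_ne_zero_iff.2 fun a _ => hs a
  obtain ⟨a, a0, a1, a2, a3⟩ := alt_unit (S := V.toSubring) (exteriorPower.ιMulti K n)
    (fun j => h2 c' hc' (c.succAbove j.succ)) (fun j => h2 c hc (c'.succAbove j.succ))
    (by rw [h4 c' hc']; exact smul_ne_zero (div_ne_zero h5 (pow_ne_zero _ (h.ne _))) (h.lf_ne hc'))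
  refine ⟨a, val_eq_one a0 a1 a2, ?_⟩
  rw [h4 c hc, h4 c' hc'] at a3
  have h6 := congrArg (fun η => ((∏ a ∈ Finset.univ.erase z, ξ a) / ((∏ a, s a) * ξ 0 ^ k)) • η) a3
  simp only [smul_smul] at h6
  rw [om, om, smul_smul]
  convert h6 using 2 <;> field_simp

theorem Cone.two (hV : IsPrimeDiv ξ V) (hx : x ∈ center ξ V) (hi : x.rep i ≠ 0)
    {a b : Fin (n + 2)} (h1 : a ≠ c) (h2 : b ≠ c) (h3 : a ≠ b) (h4 : T = {c, a, b})
    (h5 : ∀ d ∈ T, V.valuation (ξ d / ξ i) < 1) : ξ c / ξ a ∉ V := by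
  intro hm
  obtain ⟨p, q, a1, a2⟩ := prime_loc hV hx hi _ hm
  obtain ⟨e, F, G, b1, b2, rfl, rfl, e', c1, c2, c3, c4⟩ :=
    ratio_of (h.ne i) (ne_zero_of_val a1) a2
  have h6 := h.ne a
  obtain ⟨Q, hQ⟩ := h.kp (1 + e') (X c * G - X a * F)
    (((isHomogeneous_X ℂ c).mul c2).sub ((isHomogeneous_X ℂ a).mul c1))
    (by simp only [map_sub, map_mul, aeval_X, ← c4]; field_simp; ring)
  have h7 := congrArg (fun P => kill b (kill a P)) hQ
  simp only [cub, h4, sum_tri h1 h2 h3, map_sub, map_mul, map_add, map_pow, kill_X, if_true,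
    if_neg h1.symm, if_neg h2.symm, if_neg h3.symm, map_zero] at h7
  have h8 : kill b (kill a G) = X c * (X c * kill b (kill a Q)) :=
    mul_left_cancel₀ (X_ne_zero c) (by linear_combination h7)
  obtain ⟨u, hu⟩ := X_dvd_sub_kill a G
  obtain ⟨v, hv⟩ := X_dvd_sub_kill b (kill a G)
  have h9 : G = X a * u + X b * v + X c * (X c * kill b (kill a Q)) := by
    linear_combination hu + hv + h8
  have key : ∀ d ∈ T, ∀ P, V.valuation (aeval (ch ξ i) (deh i (X d * P))) < 1 := fun d hd P => by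
    rw [map_mul, map_mul, map_mul, aeval_deh_X (h.ne i)]
    exact mul_lt_one_of_lt_of_le (h5 d hd) ((V.valuation_le_one_iff _).2 (poly_mem hx hi _))
  refine absurd a1 (ne_of_lt ?_)
  rw [h9, map_add (deh i), map_add (deh i), map_add (aeval (ch ξ i)), map_add (aeval (ch ξ i))]
  exact Valuation.map_add_lt _ (Valuation.map_add_lt _ (key a (by simp [h4]) _)
    (key b (by simp [h4]) _)) (key c (by simp [h4]) _)

theorem Cone.unit (hV : IsPrimeDiv ξ V) (hx : x ∈ center ξ V) (hi : x.rep i ≠ 0) :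
    ∃ c ∈ T, c ≠ i ∧ V.valuation (ξ c / ξ i) = 1 := by
  by_contra h0
  have h1 : ∀ c ∈ T, c ≠ i → V.valuation (ξ c / ξ i) < 1 := fun c hc hne =>
    lt_of_le_of_ne ((V.valuation_le_one_iff _).2 (coord_mem hx hi c)) fun e => h0 ⟨c, hc, hne, e⟩
  by_cases hT : i ∈ T
  · obtain ⟨a, b, a1, a2, a3, a4⟩ := h.tri hT
    have h2 := h.rel
    rw [a4, sum_tri a1 a2 a3] at h2
    have h3 := h.ne i
    have h4 : (ξ a / ξ i) ^ 3 + (ξ b / ξ i) ^ 3 = -1 := by
      field_simp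
      linear_combination h2
    have h5 := Valuation.map_add_lt V.valuation (x := (ξ a / ξ i) ^ 3) (y := (ξ b / ξ i) ^ 3)
      (g := 1) (by rw [map_pow]; exact pow_lt_one₀ zero_le (h1 a (by simp [a4]) a1) (by norm_num))
      (by rw [map_pow]; exact pow_lt_one₀ zero_le (h1 b (by simp [a4]) a2) (by norm_num))
    simp [h4] at h5
  · have h2 : ∀ d ∈ T, V.valuation (ξ d / ξ i) < 1 := fun d hd => h1 d hd fun e => hT (e ▸ hd)
    obtain ⟨c, hc, -⟩ := h.exists_ne i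
    obtain ⟨a, b, a1, a2, a3, a4⟩ := h.tri hc
    rcases V.mem_or_inv_mem (ξ c / ξ a) with h3 | h3
    · exact h.two hV hx hi a1 a2 a3 a4 h2 h3
    · rw [inv_div] at h3
      exact h.two hV hx hi a1.symm a3.symm a2.symm (by rw [a4, Finset.insert_comm]) h2 h3

theorem Cone.ordF_prime (hV : IsPrimeDiv ξ V) (hx : x ∈ center ξ V) (hi : x.rep i ≠ 0)
    {c₀ : Fin (n + 2)} (hc₀ : c₀ ∈ T) (z : Fin (n + 2)) {k : ℕ} (hk : k + 2 = n) :
    ∃ g : K, V.valuation g * V.valuation (ξ z / ξ i) = V.valuation ((ξ 0 ^ k)⁻¹ * ξ i ^ k) ∧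
      ordF V (om ξ z k c₀) = ord V g := by
  classical
  obtain ⟨c, hc, h1, h2⟩ := h.unit hV hx hi
  obtain ⟨j, rfl⟩ := Fin.exists_succAbove_eq h1.symm
  obtain ⟨a, a1, a2⟩ := h.om_unit hc₀ hc z k V
  obtain ⟨b, b1, b2⟩ := lf_unit (ξ := ξ ∘ c.succAbove) (fun _ => h.ne _) (h.lf_ne hc) V j
  rw [om.eq_1 ξ z k c, b2, lf_eq (ξ := ξ ∘ c.succAbove) fun _ => h.ne _] at a2
  simp only [smul_smul] at a2
  have h0 : dw (ch (ξ ∘ c.succAbove) j) ≠ 0 := dw_ne (h.basis hc j)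
  refine ⟨_, ?_, by
    rw [a2]
    refine ordF_smul h0 (reg_iff (const_mem hx) (fun l => coord_mem hx hi _)
      (fun l => coord_mem hx hi _) (fun l => ?_) (prime_loc hV hx hi)) _
    have h3 : ∀ d, d ≠ c → Cmb V.toSubring (fun l => D ℂ K (ch (ξ ∘ c.succAbove) j l))
        (D ℂ K (ξ d / ξ (c.succAbove j))) := by
      intro d hd
      obtain ⟨d, rfl⟩ := Fin.exists_succAbove_eq hd
      refine j.succAboveCases ?_ (fun l => Cmb.self l) d
      rw [div_self (h.ne _), Derivation.map_one_eq_zero]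
      exact Cmb.zero
    show Cmb V.toSubring _ (D ℂ K (ξ ((c.succAbove j).succAbove l) / ξ (c.succAbove j)))
    generalize (c.succAbove j).succAbove l = d
    by_cases hd : d = c
    · have h4 : ∑ a ∈ T, (ξ a / ξ (c.succAbove j)) ^ 3 = 0 := by
        simp only [div_pow, ← Finset.sum_div, h.rel, zero_div]
      have h5 := sum_D h4
      rw [← Finset.add_sum_erase _ _ hc] at h5
      have h6 := congrArg (fun η => ((ξ c / ξ (c.succAbove j)) ^ 2)⁻¹ • η)
        (eq_neg_of_add_eq_zero_left h5)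
      simp only [inv_smul_smul₀ (pow_ne_zero 2 (ne_zero_of_val h2))] at h6
      rw [hd, h6]
      exact (Cmb.sum _ fun d hd => (h3 d (Finset.ne_of_mem_erase hd)).smul
        (pow_mem (coord_mem hx hi d) 2)).neg.smul (inv_mem_of_val (by rw [map_pow, h2, one_pow]))
    · exact h3 d hd⟩
  have e1 : (∏ a ∈ Finset.univ.erase z, ξ a) * ξ z = ξ c * ∏ a, ξ (c.succAbove a) := by
    rw [Finset.prod_erase_mul _ _ (Finset.mem_univ z), Fin.prod_univ_succAbove _ c]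
  have e2 : ∏ a, ξ (c.succAbove a) ≠ 0 := Finset.prod_ne_zero_iff.2 fun a _ => h.ne _
  have e3 := h.ne c
  have e4 := h.ne 0
  have e5 := h.ne (c.succAbove j)
  have e6 := ne_zero_of_val h2
  have e7 : a * ((∏ a ∈ Finset.univ.erase z, ξ a) / (ξ c ^ 3 * ξ 0 ^ k) *
      (b * (∏ a, (ξ ∘ c.succAbove) a / (ξ ∘ c.succAbove) j)⁻¹)) * (ξ z / ξ (c.succAbove j)) =
      a * b * ((ξ c / ξ (c.succAbove j)) ^ 2)⁻¹ * ((ξ 0 ^ k)⁻¹ * ξ (c.succAbove j) ^ k) := by
    simp only [Function.comp_apply, Finset.prod_div_distrib, Finset.prod_const, Finset.card_univ,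
      Fintype.card_fin]
    rw [show ξ (c.succAbove j) ^ (n + 1) = ξ (c.succAbove j) ^ k * ξ (c.succAbove j) ^ 3 by
      rw [← pow_add, show k + 3 = n + 1 by omega]]
    field_simp
    linear_combination (a * b) * e1
  rw [← map_mul, e7, map_mul, map_mul, map_mul, a1, b1, map_inv₀, map_pow, h2]
  simp

theorem Cone.le_ordF (hV : IsDiscreteValuationRing V) (hx : x ∈ center ξ V) (hi : x.rep i ≠ 0)
    {c₀ : Fin (n + 2)} (hc₀ : c₀ ∈ T) {z : Fin (n + 2)} (hz : z ∉ T) {k : ℕ} (hk : k + 2 = n) :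
    ord V ((ξ 0 ^ k)⁻¹ * ξ i ^ k) - 1 ≤ ordF V (om ξ z k c₀) := by
  classical
  obtain ⟨t, ht⟩ := IsDiscreteValuationRing.exists_irreducible V
  obtain ⟨c, hc, hm⟩ := T.exists_max_image (fun a => V.valuation (ξ a)) ⟨c₀, hc₀⟩
  obtain ⟨a, a1, a2⟩ := h.om_unit hc₀ hc z k V
  have e3 := h.ne c
  have e4 := h.ne 0
  have e5 := h.ne i
  have e0 : (ξ 0 ^ k)⁻¹ * ξ i ^ k = ((ξ 0 / ξ i) ^ k)⁻¹ := by rw [div_pow, inv_div, div_eq_inv_mul]
  have h1 := ord_inv_nonpos hV (pow_ne_zero k (div_ne_zero e4 e5)) (pow_mem (coord_mem hx hi 0) k)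
  rw [← e0] at h1
  obtain ⟨r, hr⟩ := exists_val hV ht (mul_ne_zero (inv_ne_zero (pow_ne_zero k e4)) (pow_ne_zero k e5))
  rw [ord_eq hV ht hr] at h1 ⊢
  have h0 : (t : K) ≠ 0 := fun e => ht.ne_zero (Subtype.ext e)
  refine H79.le_ordF (by omega) ht ?_
  have hT : T ⊆ Finset.univ.erase z := fun a ha =>
    Finset.mem_erase.2 ⟨fun e => hz (e ▸ ha), Finset.mem_univ a⟩
  have h2 : (Finset.univ.erase z \ T).card = k := by
    rw [Finset.card_sdiff_of_subset hT, Finset.card_erase_of_mem (Finset.mem_univ z), h.card,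
      Finset.card_univ, Fintype.card_fin]
    omega
  have e7 : (t : K) ^ (-(r - 1)) * (a * ((∏ a ∈ Finset.univ.erase z, ξ a) / (ξ c ^ 3 * ξ 0 ^ k))) =
      (a * ((t : K) ^ (-r) * ((ξ 0 ^ k)⁻¹ * ξ i ^ k)) *
        ((∏ a ∈ Finset.univ.erase z \ T, ξ a / ξ i) * ∏ a ∈ T, ξ a / ξ c)) * t := by
    rw [← Finset.prod_sdiff hT, Finset.prod_div_distrib, Finset.prod_div_distrib,
      Finset.prod_const, Finset.prod_const, h2, h.card, neg_sub, sub_eq_neg_add, zpow_add_one₀ h0]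
    field_simp
  rw [a2, om, smul_smul, smul_smul, mul_assoc, e7, mul_smul]
  refine reg_smul (mul_mem ?_ (mul_mem (V.toSubring.prod_mem fun a _ => coord_mem hx hi a)
    (V.toSubring.prod_mem fun a ha => ?_))) (lf_reg (fun _ => h.ne _) hV ht 0)
  · rw [← V.valuation_le_one_iff, map_mul, map_mul, a1, hr, map_zpow₀,
      ← zpow_add₀ (val_irr_pos ht).ne']
    simp
  · change ξ a / ξ c ∈ V
    rw [← V.valuation_le_one_iff, map_div₀, div_le_one₀ ((Valuation.pos_iff _).2 e3)]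
    exact hm a ha

end Pool.Agent.MP_776d16_ag.H79
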