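import Pool.Agent.MP_776d16_ag.H79.Cone2

/-! The cone over the Fermat cubic curve with a hyperplane section is a log canonical pair. -/

namespace Pool.Agent.MP_776d16_ag.H79

open MvPolynomial KaehlerDifferential Pool.Agent.MP_776d16_ag.H55

variable {K : Type} [Field K] [Algebra ℂ K] {n : ℕ}

theorem kill_deh (s : Fin (n + 1)) (G : MvPolynomial (Fin (n + 2)) ℂ) :
    kill s (deh 0 G) = deh 0 (kill s.succ G) := by
  have : (kill s).comp (deh 0) = (deh 0).comp (kill s.succ) :=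
    MvPolynomial.algHom_ext fun a => by
      have e : ∀ j : Fin (n + 1), deh 0 (X j.succ) = X j := fun j => deh_succ 0 j
      refine Fin.cases ?_ (fun j => ?_) a
      · simp [kill_X, (Fin.succ_ne_zero s).symm]
      · simp only [AlgHom.comp_apply, e, kill_X, Fin.succ_inj]
        split_ifs
        exacts [(map_zero _).symm, (e j).symm]
  exact DFunLike.congr_fun this G

theorem kill_cub {σ : Type} [DecidableEq σ] {T : Finset σ} {z : σ} (hz : z ∉ T) :
    kill z (cub T) = cub T := by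
  simp only [cub, map_sum, map_pow, kill_X]
  exact Finset.sum_congr rfl fun a ha => by rw [if_neg fun e : a = z => hz (e ▸ ha)]

variable {T : Finset (Fin (n + 2))} {ξ : Fin (n + 2) → K} (h : Cone T ξ)

include h

theorem Cone.ker (a : MvPolynomial (Fin (n + 1)) ℂ) :
    aeval (ch ξ 0) a = 0 ↔ deh 0 (cub T) ∣ a := by
  constructor
  · intro h0
    obtain ⟨e, F, h1, rfl⟩ := homog 0 a
    exact map_dvd _ (h.kp e F h1 (by rw [aeval_deh (h.ne 0) h1, h0, mul_zero]))
  · rintro ⟨q, rfl⟩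
    have h1 := aeval_deh (h.ne 0) (cub_homog T)
    rw [show aeval ξ (cub T) = 0 by simpa [cub] using h.rel] at h1
    rw [map_mul, (mul_eq_zero.1 h1.symm).resolve_left (pow_ne_zero _ (h.ne 0)), zero_mul]

theorem Cone.exists_H {s : Fin (n + 1)} (hs : s.succ ∉ T) (hp : Prime (deh 0 (cub T))) :
    ∃ H : ValuationSubring K, IsPrimeDiv ξ H ∧
      (∃ t : H, Irreducible t ∧ (t : K) = ξ s.succ / ξ 0) ∧ (∃ x ∈ center ξ H, x.rep 0 ≠ 0) ∧
      ∀ V x i, IsPrimeDiv ξ V → x ∈ center ξ V → x.rep i ≠ 0 →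
        V.valuation (ξ s.succ / ξ i) ≠ 1 → V = H := by
  classical
  let I : Ideal (MvPolynomial (Fin (n + 1)) ℂ) := Ideal.span {deh 0 (cub T)}
  have hI : I.IsPrime := (Ideal.span_singleton_prime hp.ne_zero).2 hp
  let φ : (MvPolynomial (Fin (n + 1)) ℂ ⧸ I) →+* K := Ideal.Quotient.lift I
    ((aeval (ch ξ 0) : MvPolynomial (Fin (n + 1)) ℂ →ₐ[ℂ] K) : _ →+* K)
    fun a ha => (h.ker a).2 (Ideal.mem_span_singleton.1 ha)
  have e0 : ∀ a, φ (Ideal.Quotient.mk I a) = aeval (ch ξ 0) a := fun _ => rfl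
  have hφ : Fr φ := by
    refine ⟨(injective_iff_map_eq_zero _).2 fun a ha => ?_, fun g => ?_⟩
    · obtain ⟨a, rfl⟩ := Ideal.Quotient.mk_surjective a
      exact Ideal.Quotient.eq_zero_iff_mem.2 (Ideal.mem_span_singleton.2 ((h.ker a).1 ha))
    · obtain ⟨F, G, h1⟩ := h.gen g
      obtain ⟨h2, h3⟩ := of_ratio (h.ne 0) h1
      exact ⟨Ideal.Quotient.mk I _, Ideal.Quotient.mk I _, fun e => h2 (by rw [← e0, e, map_zero]),
        h3⟩
  have hk : kill s (deh 0 (cub T)) = deh 0 (cub T) := by rw [kill_deh, kill_cub hs]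
  have hd : ∀ a, Ideal.Quotient.mk I (X s) ∣ Ideal.Quotient.mk I a ↔ deh 0 (cub T) ∣ kill s a := by
    intro a
    constructor
    · rintro ⟨q, hq⟩
      obtain ⟨q, rfl⟩ := Ideal.Quotient.mk_surjective q
      rw [← map_mul, Ideal.Quotient.eq, Ideal.mem_span_singleton] at hq
      have := map_dvd (kill s) hq
      rwa [hk, map_sub, map_mul, kill_X, if_pos rfl, zero_mul, sub_zero] at this
    · intro h1
      have h2 := map_dvd (Ideal.Quotient.mk I) (X_dvd_sub_kill s a)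
      rwa [map_sub, Ideal.Quotient.eq_zero_iff_mem.2 (Ideal.mem_span_singleton.2 h1),
        sub_zero] at h2
  have hq : Prime (Ideal.Quotient.mk I (X s)) := by
    refine ⟨fun e => ?_, fun hu => ?_, fun a b hab => ?_⟩
    · have := e0 (X s)
      rw [e, map_zero, aeval_X] at this
      exact div_ne_zero (h.ne _) (h.ne _) this.symm
    · have := (hd 1).1 hu.dvd
      rw [map_one] at this
      exact hp.not_dvd_one this
    · obtain ⟨a, rfl⟩ := Ideal.Quotient.mk_surjective a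
      obtain ⟨b, rfl⟩ := Ideal.Quotient.mk_surjective b
      rw [← map_mul, hd, map_mul] at hab
      rw [hd, hd]
      exact hp.dvd_or_dvd hab
  have h0 : (Pi.single 0 1 : Fin (n + 2) → ℂ) ≠ 0 := fun e => by simpa using congrFun e 0
  obtain ⟨x, x1, x2⟩ : ∃ x : PP (n + 1), x.rep 0 ≠ 0 ∧ ∀ a, a ≠ 0 → x.rep a = 0 :=
    ⟨Projectivization.mk ℂ _ h0, by simp [rep_mk], fun a ha => by simp [rep_mk, ha]⟩
  have x3 : ch x.rep 0 = 0 := funext fun j => by simp [ch, x2]
  have x4 : ∑ a ∈ T, x.rep a ^ 3 = 0 :=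
    Finset.sum_eq_zero fun a ha => by rw [x2 a fun e => h.zero (e ▸ ha)]; norm_num
  have x5 : x ∈ var ξ := h.mem_var.2 x4
  have x6 : x ∈ center ξ (W hφ hq) := by
    refine ⟨x5, fun g hg => ?_⟩
    obtain ⟨a, b, h1, h2⟩ := (mem_loc x5 x1).1 hg
    refine ⟨Ideal.Quotient.mk I a, Ideal.Quotient.mk I b, fun h3 => h1 ?_, h2⟩
    obtain ⟨u, hu⟩ := (hd b).1 h3
    obtain ⟨v, hv⟩ := X_dvd_sub_kill s b
    have h4 := eval_deh x1 (cub_homog T)
    rw [show eval x.rep (cub T) = 0 by simpa [cub] using x4] at h4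
    rw [eq_add_of_sub_eq hv, hu, map_add, map_mul, map_mul,
      (mul_eq_zero.1 h4.symm).resolve_left (pow_ne_zero _ x1), x3]
    simp
  refine ⟨W hφ hq, ⟨W_dvr _ _, x, x6, ?_⟩, ⟨_, W_irr hφ hq, by simp [e0, ch]⟩, ⟨x, x6, x1⟩, ?_⟩
  · rintro g ⟨a, b, h1, h2⟩
    obtain ⟨a, rfl⟩ := Ideal.Quotient.mk_surjective a
    obtain ⟨b, rfl⟩ := Ideal.Quotient.mk_surjective b
    exact ⟨_, poly_mem_loc x5 x1 a, _, poly_mem_loc x5 x1 b, W_unit hφ hq h1, h2⟩
  · intro V y i hV hy hi hne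
    have := hV.1
    refine ValuationSubring.eq_of_le_of_ne_top _ (fun g hg => ?_) (W_ne_top hφ hq)
    obtain ⟨a, b, h1, h2⟩ := prime_loc hV hy hi g hg
    obtain ⟨e, F, G, b1, b2, rfl, rfl, h3⟩ := ratio_of (h.ne i) (ne_zero_of_val h1) h2
    refine ⟨Ideal.Quotient.mk I _, Ideal.Quotient.mk I _, fun h4 => ?_, (of_ratio (h.ne 0) h3).2⟩
    rw [hd, kill_deh, ← h.ker] at h4
    have h5 := kill_homog s.succ b2
    have h6 := aeval_deh (h.ne i) h5
    rw [aeval_deh (h.ne 0) h5, h4, mul_zero] at h6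
    obtain ⟨v, hv⟩ := X_dvd_sub_kill s.succ G
    rw [eq_add_of_sub_eq hv, map_add (deh i), map_add (aeval (ch ξ i)),
      (mul_eq_zero.1 h6.symm).resolve_left (pow_ne_zero _ (h.ne i)), add_zero, map_mul, map_mul,
      map_mul, aeval_deh_X (h.ne i)] at h1
    exact (mul_lt_one_of_lt_of_le (lt_of_le_of_ne
      ((V.valuation_le_one_iff _).2 (coord_mem hy hi _)) hne)
      ((V.valuation_le_one_iff _).2 (poly_mem hy hi _))).ne h1

theorem Cone.pair {s : Fin (n + 1)} (hs : s.succ ∉ T) (hp : Prime (deh 0 (cub T))) (hn : 3 ≤ n) :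
    ∃ (H : ValuationSubring K) (P : FanoPair n ξ {H}), P.IsLC ∧
      ∀ x ∈ supp ξ {H}, x.rep s.succ = 0 := by
  classical
  obtain ⟨H, h1, ⟨t, ht, h2⟩, ⟨x₀, h3, h4⟩, h5⟩ := h.exists_H hs hp
  obtain ⟨c, hc, -⟩ := h.exists_ne 0
  have hk : n - 2 + 2 = n := by omega
  have hf : ∀ i, (ξ 0 ^ (n - 2))⁻¹ * ξ i ^ (n - 2) ≠ 0 := fun i =>
    mul_ne_zero (inv_ne_zero (pow_ne_zero _ (h.ne 0))) (pow_ne_zero _ (h.ne i))
  refine ⟨H, ⟨h.normal, Finset.singleton_nonempty H, by simpa using h1, om ξ s.succ (n - 2) c,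
    h.om_ne hc _ _, 1, n - 2, one_pos, by omega, (ξ 0 ^ (n - 2))⁻¹,
    inv_ne_zero (pow_ne_zero _ (h.ne 0)), fun V hV x hx i hi => ?_⟩, fun V hV x hx i hi => ?_,
    fun x hx => ?_⟩
  · obtain ⟨g, a1, a2⟩ := h.ordF_prime hV hx hi hc s.succ hk
    rw [a2, Nat.cast_one, one_mul]
    split_ifs with hD
    · obtain rfl := Finset.mem_singleton.1 hD
      refine ord_div hV.1 ht (hf i) ?_
      rw [← a1, h2, map_div₀, map_div₀, val_coord' hx hi h3 h4]
    · rw [of_not_not fun e => hD (Finset.mem_singleton.2 (h5 V x i hV hx hi e)), mul_one] at a1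
      rw [add_zero]
      exact ord_congr hV.1 (hf i) a1
  · have := h.le_ordF hV.1 hx hi hc hs hk
    simp only [FanoPair.disc, Nat.cast_one, div_one]
    exact_mod_cast by omega
  · by_contra h6
    have h7 : x ∈ center ξ H := by simpa [supp] using hx
    refine (val_irr_lt ht).ne (val_eq_one (fun e => ht.ne_zero (Subtype.ext e)) t.2 ?_)
    rw [h2, inv_div]
    exact coord_mem h7 h6 0

omit h in
theorem exists_cone {T : Finset (Fin (n + 2))} (h3 : T.card = 3) (h0 : 0 ∉ T)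
    (hp : Prime (deh 0 (cub T))) (hp' : Prime (cub T)) (hX : ∀ j, ¬ deh 0 (cub T) ∣ X j) :
    ∃ (K : Type) (_ : Field K) (_ : Algebra ℂ K) (ξ : Fin (n + 2) → K), Cone T ξ := by
  classical
  let R := MvPolynomial (Fin (n + 1)) ℂ
  let I : Ideal R := Ideal.span {deh 0 (cub T)}
  have hI : I.IsPrime := (Ideal.span_singleton_prime hp.ne_zero).2 hp
  let A := R ⧸ I
  let K := FractionRing A
  let ψ : R →ₐ[ℂ] K := (IsScalarTower.toAlgHom ℂ A K).comp (Ideal.Quotient.mkₐ ℂ I)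
  have e0 : ∀ a, ψ a = algebraMap A K (Ideal.Quotient.mk I a) := fun _ => rfl
  have hψ : ∀ a, ψ a = 0 ↔ deh 0 (cub T) ∣ a := fun a => by
    rw [e0, map_eq_zero_iff _ (IsFractionRing.injective A K), Ideal.Quotient.eq_zero_iff_mem,
      Ideal.mem_span_singleton]
  let ξ : Fin (n + 2) → K := Fin.cons 1 fun j => ψ (X j)
  have h1 : ∀ a : R, aeval (ch ξ 0) a = ψ a := fun a =>
    DFunLike.congr_fun (MvPolynomial.algHom_ext (f := aeval (ch ξ 0)) (g := ψ) fun j => by
      simp [ch, ξ]) a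
  have h2 : ξ 0 = 1 := rfl
  have h2' : ξ 0 ≠ 0 := h2 ▸ one_ne_zero
  have h4 : ∀ {e : ℕ} {F : MvPolynomial (Fin (n + 2)) ℂ}, F.IsHomogeneous e →
      aeval ξ F = ψ (deh 0 F) := fun hF => by rw [aeval_deh h2' hF, h2, one_pow, one_mul, h1]
  refine ⟨K, inferInstance, inferInstance, ξ, h3, h0, fun a => ?_, ?_, fun e F hF h5 => ?_,
    fun g => ?_, fun c hc => ?_⟩
  · exact Fin.cases h2' (fun j e => hX j ((hψ _).1 e)) a
  · have := h4 (cub_homog T)
    rw [(hψ _).2 dvd_rfl] at this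
    simpa [cub] using this
  · rw [h4 hF, hψ] at h5
    obtain ⟨q, hq⟩ := h5
    obtain ⟨e', Q, h6, rfl⟩ := homog 0 q
    have h7 : F * X 0 ^ (3 + e') - X 0 ^ e * (cub T * Q) = 0 :=
      deh_inj (i := 0) ((hF.mul (isHomogeneous_X_pow _ _)).sub
        ((isHomogeneous_X_pow _ _).mul ((cub_homog T).mul h6))) (by simp [hq])
    refine (hp'.dvd_or_dvd (a := F) (b := X 0 ^ (3 + e')) ⟨X 0 ^ e * Q, by
      linear_combination h7⟩).resolve_right fun h8 => ?_
    exact hp.not_dvd_one (by simpa using map_dvd (deh 0) h8)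
  · obtain ⟨a, b, hb, rfl⟩ := IsFractionRing.div_surjective (A := A) g
    obtain ⟨a, rfl⟩ := Ideal.Quotient.mk_surjective a
    obtain ⟨b, rfl⟩ := Ideal.Quotient.mk_surjective b
    have hb' : ψ b ≠ 0 := (map_ne_zero_iff _ (IsFractionRing.injective A K)).2
      (nonZeroDivisors.ne_zero hb)
    obtain ⟨e, F, G, -, -, -, -, h5⟩ := ratio_of (a := a) (b := b) h2' (by rwa [h1])
      (by rw [h1, h1]; exact div_mul_cancel₀ _ hb')
    exact ⟨F, G, h5⟩
  · obtain ⟨ζ, hζ⟩ := IsAlgClosed.exists_pow_nat_eq (-3 : ℂ) (n := 2) (by norm_num)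
    obtain ⟨ζ, hζ⟩ : ∃ ζ : ℂ, ζ ^ 2 + ζ + 1 = 0 := ⟨(-1 + ζ) / 2, by linear_combination hζ / 4⟩
    have h5 : ζ ^ 3 = 1 := by linear_combination (ζ - 1) * hζ
    let τ : R →ₐ[ℂ] R := aeval fun j => C (if j.succ = c then ζ else 1) * X j
    have h6 : ∀ a : Fin (n + 2), τ (deh 0 (X a)) = C (if a = c then ζ else 1) * deh 0 (X a) := by
      intro a
      refine Fin.cases ?_ (fun j => ?_) a
      · rw [if_neg fun e : 0 = c => h0 (e ▸ hc)]; simp
      · rw [show deh 0 (X j.succ) = X j from deh_succ 0 j]; exact aeval_X _ _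
    have h7 : τ (deh 0 (cub T)) = deh 0 (cub T) := by
      simp only [cub, map_sum, map_pow, h6]
      refine Finset.sum_congr rfl fun a _ => ?_
      rw [mul_pow, ← map_pow]
      split_ifs <;> simp [h5]
    have h8 : ∀ a, τ (τ (τ a)) = a := fun a =>
      DFunLike.congr_fun (MvPolynomial.algHom_ext (f := τ.comp (τ.comp τ)) (g := AlgHom.id ℂ R)
        fun j => by
          have e : ∀ r : ℂ, τ (C r * X j) = C (r * if j.succ = c then ζ else 1) * X j := fun r => by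
            rw [map_mul, algHom_C, show τ (X j) = _ from aeval_X _ _, map_mul, mul_assoc]; rfl
          rw [AlgHom.comp_apply, AlgHom.comp_apply, show τ (X j) = _ from aeval_X _ _, e, e]
          split_ifs
          · rw [show ζ * ζ * ζ = 1 by linear_combination h5, AlgHom.id_apply]; simp
          · rw [AlgHom.id_apply]; simp) a
    let χ : A →ₐ[ℂ] K := Ideal.Quotient.liftₐ I (ψ.comp τ) fun a ha =>
      (hψ _).2 (h7 ▸ map_dvd τ (Ideal.mem_span_singleton.1 ha))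
    have h9 : Function.Injective χ := (injective_iff_map_eq_zero _).2 fun a ha => by
      obtain ⟨a, rfl⟩ := Ideal.Quotient.mk_surjective a
      have h10 := map_dvd τ (map_dvd τ ((hψ (τ a)).1 ha))
      rw [h7, h7, h8] at h10
      exact Ideal.Quotient.eq_zero_iff_mem.2 (Ideal.mem_span_singleton.2 h10)
    refine ⟨ζ, IsFractionRing.liftAlgHom h9, hζ, fun a => ?_⟩
    have h10 : ξ a = ψ (deh 0 (X a)) := by simpa using h4 (isHomogeneous_X ℂ a)
    rw [h10, e0, IsFractionRing.liftAlgHom_apply, IsFractionRing.lift_algebraMap, ← e0]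
    change ψ (τ (deh 0 (X a))) = _
    rw [h6, map_mul, algHom_C]
    split_ifs <;> simp

end Pool.Agent.MP_776d16_ag.H79
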