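import Mathlib
import Pool.Agent.MP_776d16_ag.H55.Defs

/-
Log Fano pairs with reduced boundary, log canonical and dlt singularities.

A projective variety `X ⊆ ℙ^N(ℂ)` is given by its function field `K` and the homogeneous
coordinates `ξ` of its generic point.  Divisors on and over `X` are discrete valuation rings of
`K`; the canonical divisor is the divisor of a rational top form.
-/

namespace Pool.Agent.MP_776d16_ag.H79

open MvPolynomial Pool.Agent.MP_776d16_ag.H55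

variable {K : Type} [Field K] [Algebra ℂ K] {N : ℕ}

/-- `g = F(ξ) / G(ξ)` with forms `F`, `G` of one degree. -/
def Ratio (ξ : Fin (N + 1) → K) (g : K) (F G : MvPolynomial (Fin (N + 1)) ℂ) : Prop :=
  ∃ e, F.IsHomogeneous e ∧ G.IsHomogeneous e ∧ aeval ξ G ≠ 0 ∧ g * aeval ξ G = aeval ξ F

/-- The variety `X` with generic point `ξ`. -/
def var (ξ : Fin (N + 1) → K) : Set (PP N) :=
  {x | ∀ (e : ℕ) (F : MvPolynomial (Fin (N + 1)) ℂ), F.IsHomogeneous e → aeval ξ F = 0 →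
    eval x.rep F = 0}

/-- The local ring of `X` at `x`. -/
def loc (ξ : Fin (N + 1) → K) (x : PP N) : Subring K where
  carrier := {g | ∃ F G, Ratio ξ g F G ∧ eval x.rep G ≠ 0}
  zero_mem' := ⟨0, 1, ⟨0, isHomogeneous_zero _ _ _, isHomogeneous_one _ _, by simp⟩, by simp⟩
  one_mem' := ⟨1, 1, ⟨0, isHomogeneous_one _ _, isHomogeneous_one _ _, by simp⟩, by simp⟩
  neg_mem' := by
    rintro g ⟨F, G, ⟨e, a, b, c, d⟩, h⟩
    exact ⟨-F, G, ⟨e, a.neg, b, c, by rw [map_neg, ← d, neg_mul]⟩, h⟩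
  add_mem' := by
    rintro g g' ⟨F, G, ⟨e, a, b, c, d⟩, h⟩ ⟨F', G', ⟨e', a', b', c', d'⟩, h'⟩
    refine ⟨F * G' + G * F', G * G', ⟨e + e', (a.mul b').add (b.mul a'), b.mul b', ?_, ?_⟩, ?_⟩
    · simp [c, c']
    · simp only [map_add, map_mul, ← d, ← d']; ring
    · simp [h, h']
  mul_mem' := by
    rintro g g' ⟨F, G, ⟨e, a, b, c, d⟩, h⟩ ⟨F', G', ⟨e', a', b', c', d'⟩, h'⟩
    refine ⟨F * F', G * G', ⟨e + e', a.mul a', b.mul b', ?_, ?_⟩, ?_⟩
    · simp [c, c']
    · simp only [map_mul, ← d, ← d']; ring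
    · simp [h, h']

/-- The maximal ideal of the local ring at `x`. -/
def mx (ξ : Fin (N + 1) → K) (x : PP N) : Set K :=
  {g | ∃ F G, Ratio ξ g F G ∧ eval x.rep G ≠ 0 ∧ eval x.rep F = 0}

/-- `X` is a normal projective variety of dimension `n` with function field `K`. -/
structure IsNormalVar (n : ℕ) (ξ : Fin (N + 1) → K) : Prop where
  ne : ξ ≠ 0
  gen : ∀ g : K, ∃ F G, Ratio ξ g F G
  dim : Algebra.trdeg ℂ K = n
  normal : ∀ x ∈ var ξ, IsIntegrallyClosedIn (loc ξ x) K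

/-- The centre on `X` of a valuation ring of `K`. -/
def center (ξ : Fin (N + 1) → K) (V : ValuationSubring K) : Set (PP N) :=
  {x | x ∈ var ξ ∧ loc ξ x ≤ V.toSubring}

/-- A prime divisor on `X`: a discrete valuation ring that is a localization of a local ring. -/
def IsPrimeDiv (ξ : Fin (N + 1) → K) (V : ValuationSubring K) : Prop :=
  IsDiscreteValuationRing V ∧ ∃ x ∈ center ξ V, ∀ g ∈ V,
    ∃ a ∈ loc ξ x, ∃ b ∈ loc ξ x, V.valuation b = 1 ∧ g * b = a

/-- A prime divisor over `X`: a discrete valuation ring of `K / ℂ` whose residue field has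
transcendence degree `n - 1`. -/
def IsDivOver (n : ℕ) (V : ValuationSubring K) : Prop :=
  IsDiscreteValuationRing V ∧ (∀ c : ℂ, algebraMap ℂ K c ∈ V) ∧
    ∃ y : Fin (n - 1) → K, (∀ j, y j ∈ V) ∧
      ∀ P : MvPolynomial (Fin (n - 1)) ℂ, P ≠ 0 → V.valuation (aeval y P) = 1

/-- The order of a rational function along `V`. -/
noncomputable def ord (V : ValuationSubring K) (g : K) : ℤ :=
  sSup {r : ℤ | ∃ t : V, Irreducible t ∧ (t : K) ^ (-r) * g ∈ V}

/-- The top forms that are regular along `V`: sums of forms `a * d g 1 ∧ ⋯ ∧ d g n` with `a` and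
all `g j` in `V`. -/
inductive Reg (n : ℕ) (V : ValuationSubring K) : ⋀[K]^n Ω[K⁄ℂ] → Prop
  | gen (a : K) (g : Fin n → K) : a ∈ V → (∀ j, g j ∈ V) →
      Reg n V (a • exteriorPower.ιMulti K n fun j => KaehlerDifferential.D ℂ K (g j))
  | add (η η' : ⋀[K]^n Ω[K⁄ℂ]) : Reg n V η → Reg n V η' → Reg n V (η + η')

/-- The form `ω` has order at least `r` along `V`. -/
inductive OrdGe {n : ℕ} (V : ValuationSubring K) (ω : ⋀[K]^n Ω[K⁄ℂ]) (r : ℤ) : Prop
  | mk (t : V) : Irreducible t → Reg n V ((t : K) ^ (-r) • ω) → OrdGe V ω r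

/-- The order of a rational top form along `V`. -/
noncomputable def ordF {n : ℕ} (V : ValuationSubring K) (ω : ⋀[K]^n Ω[K⁄ℂ]) : ℤ :=
  sSup {r : ℤ | OrdGe V ω r}

open Classical in
/-- `D` is a nonzero reduced divisor on the normal variety `X`, and, with `K_X = div ω`, the
divisor `m (K_X + D)` is cut out by `f * ξ i ^ k` on the chart `x i ≠ 0`.  So `K_X + D` is
`ℚ`-Cartier and `-m (K_X + D)` is linearly equivalent to `k` times a hyperplane section. -/
structure FanoPair (n : ℕ) (ξ : Fin (N + 1) → K) (D : Finset (ValuationSubring K)) where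
  normal : IsNormalVar n ξ
  nonempty : D.Nonempty
  prime : ∀ V ∈ D, IsPrimeDiv ξ V
  ω : ⋀[K]^n Ω[K⁄ℂ]
  ω_ne : ω ≠ 0
  m : ℕ
  k : ℕ
  m_pos : 0 < m
  k_pos : 0 < k
  f : K
  f_ne : f ≠ 0
  cartier : ∀ V, IsPrimeDiv ξ V → ∀ x ∈ center ξ V, ∀ i, x.rep i ≠ 0 →
    m * (ordF V ω + if V ∈ D then 1 else 0) = ord V (f * ξ i ^ k)

/-- The support of `D`. -/
def supp (ξ : Fin (N + 1) → K) (D : Finset (ValuationSubring K)) : Set (PP N) :=
  ⋃ V ∈ D, center ξ V

/-- `X` is smooth at `x` and `D` has simple normal crossings there: the components of `D`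
through `x` are cut out by distinct members of a regular system of parameters. -/
def SncAt (n : ℕ) (ξ : Fin (N + 1) → K) (D : Finset (ValuationSubring K)) (x : PP N) : Prop :=
  ∃ z : Fin n → K, (∀ j, z j ∈ mx ξ x) ∧
    (∀ g ∈ mx ξ x, ∃ c : Fin n → K, (∀ j, c j ∈ loc ξ x) ∧ g = ∑ j, c j * z j) ∧
    ∃ ι : ValuationSubring K → Fin n, Set.InjOn ι {V | V ∈ D ∧ x ∈ center ξ V} ∧
      ∀ V ∈ D, x ∈ center ξ V → ∀ g ∈ loc ξ x,
        (V.valuation g < 1 ↔ ∃ c ∈ loc ξ x, g = c * z (ι V))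

variable {n : ℕ} {ξ : Fin (N + 1) → K} {D : Finset (ValuationSubring K)}

/-- The discrepancy `a(V, X, D)`, computed in a chart `x i ≠ 0` that meets the centre of `V`. -/
noncomputable def FanoPair.disc (P : FanoPair n ξ D) (V : ValuationSubring K) (i : Fin (N + 1)) :
    ℚ := ordF V P.ω - ord V (P.f * ξ i ^ P.k) / P.m

/-- Log canonical. -/
def FanoPair.IsLC (P : FanoPair n ξ D) : Prop :=
  ∀ V, IsDivOver n V → ∀ x ∈ center ξ V, ∀ i, x.rep i ≠ 0 → -1 ≤ P.disc V i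

/-- Divisorially log terminal (Kollár–Mori, Definition 2.37). -/
def FanoPair.IsDlt (P : FanoPair n ξ D) : Prop :=
  ∃ S : Set (MvPolynomial (Fin (N + 1)) ℂ), (∀ F ∈ S, ∃ e, F.IsHomogeneous e) ∧
    (∀ x ∈ var ξ \ ⋂ F ∈ S, zeroSet F, SncAt n ξ D x) ∧
    ∀ V, IsDivOver n V → center ξ V ⊆ ⋂ F ∈ S, zeroSet F →
      ∀ x ∈ center ξ V, ∀ i, x.rep i ≠ 0 → -1 < P.disc V i

end Pool.Agent.MP_776d16_ag.H79
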