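import Pool.Agent.MP_776d16_ag.H79.Val

/-! Top forms along a valuation ring. -/

namespace Pool.Agent.MP_776d16_ag.H79

open MvPolynomial KaehlerDifferential

section Alt

variable {K M P : Type} [Field K] [AddCommGroup M] [Module K M] [AddCommGroup P] [Module K P]
  {n : ℕ}

/-- `v` is a combination of the `w l` with coefficients in `S`. -/
def Cmb (S : Subring K) (w : Fin n → M) (v : M) : Prop :=
  ∃ c : Fin n → K, (∀ l, c l ∈ S) ∧ v = ∑ l, c l • w l

variable {S : Subring K} {w : Fin n → M}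

theorem Cmb.zero : Cmb S w 0 := ⟨0, fun _ => S.zero_mem, by simp⟩

theorem Cmb.self (l : Fin n) : Cmb S w (w l) := by
  refine ⟨Pi.single l 1, fun j => ?_, by simp [Pi.single_apply]⟩
  rw [Pi.single_apply]
  split_ifs
  exacts [S.one_mem, S.zero_mem]

theorem Cmb.add {u v : M} (h : Cmb S w u) (h' : Cmb S w v) : Cmb S w (u + v) := by
  obtain ⟨c, h1, rfl⟩ := h
  obtain ⟨d, h2, rfl⟩ := h'
  exact ⟨c + d, fun l => S.add_mem (h1 l) (h2 l), by simp [add_smul, Finset.sum_add_distrib]⟩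

theorem Cmb.smul {v : M} {a : K} (ha : a ∈ S) (h : Cmb S w v) : Cmb S w (a • v) := by
  obtain ⟨c, h1, rfl⟩ := h
  exact ⟨fun l => a * c l, fun l => S.mul_mem ha (h1 l), by simp [Finset.smul_sum, mul_smul]⟩

theorem Cmb.sub {u v : M} (h : Cmb S w u) (h' : Cmb S w v) : Cmb S w (u - v) := by
  have := h.add (h'.smul (S.neg_mem S.one_mem))
  rwa [neg_smul, one_smul, ← sub_eq_add_neg] at this

theorem alt_cmb (f : M [⋀^Fin n]→ₗ[K] P) {v : Fin n → M} (h : ∀ j, Cmb S w (v j)) :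
    ∃ a ∈ S, f v = a • f w := by
  classical
  choose c h1 h2 using h
  have e : f v = ∑ r : Fin n → Fin n, (∏ j, c j (r j)) • f (w ∘ r) := by
    rw [show v = fun j => ∑ l, c j l • w l from funext h2]
    refine (f.toMultilinearMap.map_sum fun j l => c j l • w l).trans ?_
    exact Finset.sum_congr rfl fun r _ => f.map_smul_univ (fun j => c j (r j)) (w ∘ r)
  rw [e]
  refine Finset.sum_induction _ (fun x => ∃ a ∈ S, x = a • f w) ?_ ⟨0, S.zero_mem, by simp⟩ ?_
  · rintro _ _ ⟨a, ha, rfl⟩ ⟨b, hb, rfl⟩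
    exact ⟨a + b, S.add_mem ha hb, (add_smul _ _ _).symm⟩
  · intro r _
    have hp : ∏ j, c j (r j) ∈ S := S.prod_mem fun j _ => h1 j _
    by_cases hr : Function.Injective r
    · let σ : Equiv.Perm (Fin n) := Equiv.ofBijective r (Finite.injective_iff_bijective.1 hr)
      have e1 : f (w ∘ r) = Equiv.Perm.sign σ • f w := f.map_perm w σ
      rcases Int.units_eq_one_or (Equiv.Perm.sign σ) with h3 | h3
      · exact ⟨_, hp, by rw [e1, h3, one_smul]⟩
      · exact ⟨_, S.neg_mem hp, by rw [e1, h3, Units.neg_smul, one_smul, smul_neg, neg_smul]⟩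
    · refine ⟨0, S.zero_mem, ?_⟩
      rw [f.map_eq_zero_of_not_injective _ fun h3 => hr h3.of_comp, smul_zero, zero_smul]

/-- Two families that are combinations of each other. -/
theorem alt_unit (f : M [⋀^Fin n]→ₗ[K] P) {v : Fin n → M} (h : ∀ j, Cmb S w (v j))
    (h' : ∀ j, Cmb S v (w j)) (h0 : f w ≠ 0) :
    ∃ a : K, a ≠ 0 ∧ a ∈ S ∧ a⁻¹ ∈ S ∧ f v = a • f w := by
  obtain ⟨a, ha, e⟩ := alt_cmb f h
  obtain ⟨b, hb, e'⟩ := alt_cmb f h'
  have e1 : b * a = 1 := by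
    rw [e, smul_smul] at e'
    exact smul_left_injective K h0 (e'.symm.trans (one_smul _ _).symm)
  exact ⟨a, right_ne_zero_of_mul_eq_one e1, ha, by rwa [inv_eq_of_mul_eq_one_left e1], e⟩

end Alt

variable {K : Type} [Field K] [Algebra ℂ K] {n : ℕ} {V : ValuationSubring K}

/-- The form `d g 1 ∧ ⋯ ∧ d g n`. -/
noncomputable def dw {n : ℕ} (g : Fin n → K) : ⋀[K]^n Ω[K⁄ℂ] :=
  exteriorPower.ιMulti K n fun j => KaehlerDifferential.D ℂ K (g j)

/-- The top forms that are regular along `V`. -/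
noncomputable def reg (n : ℕ) (V : ValuationSubring K) : AddSubgroup (⋀[K]^n Ω[K⁄ℂ]) :=
  AddSubgroup.closure {η | ∃ a ∈ V, ∃ g : Fin n → K, (∀ j, g j ∈ V) ∧ η = a • dw g}

theorem Reg.neg {η : ⋀[K]^n Ω[K⁄ℂ]} (h : Reg n V η) : Reg n V (-η) := by
  induction h with
  | gen a g ha hg =>
    have e : -(a • dw g) = (-a) • dw g := (neg_smul _ _).symm
    exact (congrArg (Reg n V) e).mpr (.gen _ g (V.neg_mem _ ha) hg)
  | add x y _ _ h h' => rw [neg_add]; exact .add _ _ h h'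

theorem Reg_iff {η : ⋀[K]^n Ω[K⁄ℂ]} : Reg n V η ↔ η ∈ reg n V := by
  constructor
  · intro h
    induction h with
    | gen a g ha hg => exact AddSubgroup.subset_closure ⟨a, ha, g, hg, rfl⟩
    | add x y _ _ h h' => exact add_mem h h'
  · intro h
    induction h using AddSubgroup.closure_induction with
    | mem η h =>
      obtain ⟨b, hb, g, hg, rfl⟩ := h
      exact .gen b g hb hg
    | zero =>
      have := Reg.gen (n := n) (V := V) 0 0 V.zero_mem fun _ => V.zero_mem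
      rwa [zero_smul] at this
    | add x y _ _ h h' => exact .add _ _ h h'
    | neg x _ h => exact h.neg

theorem ordF_def (V : ValuationSubring K) (ω : ⋀[K]^n Ω[K⁄ℂ]) :
    ordF V ω = sSup {r : ℤ | ∃ t : V, Irreducible t ∧ (t : K) ^ (-r) • ω ∈ reg n V} := by
  unfold ordF
  congr 1
  ext r
  exact ⟨fun ⟨t, h1, h2⟩ => ⟨t, h1, Reg_iff.1 h2⟩, fun ⟨t, h1, h2⟩ => ⟨t, h1, Reg_iff.2 h2⟩⟩

theorem reg_smul {a : K} (ha : a ∈ V) {η : ⋀[K]^n Ω[K⁄ℂ]} (h : η ∈ reg n V) :
    a • η ∈ reg n V := by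
  induction h using AddSubgroup.closure_induction with
  | mem η h =>
    obtain ⟨b, hb, g, hg, rfl⟩ := h
    exact AddSubgroup.subset_closure ⟨a * b, V.mul_mem _ _ ha hb, g, hg, smul_smul _ _ _⟩
  | zero => rw [smul_zero]; exact zero_mem _
  | add x y _ _ h h' => rw [smul_add]; exact add_mem h h'
  | neg x _ h => rw [smul_neg]; exact neg_mem h

theorem dw_mem {g : Fin n → K} (hg : ∀ j, g j ∈ V) : dw g ∈ reg n V :=
  AddSubgroup.subset_closure ⟨1, V.one_mem, g, hg, (one_smul _ _).symm⟩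

theorem D_aeval (hc : ∀ c : ℂ, algebraMap ℂ K c ∈ V) {σ : Type} {y : σ → K} (hy : ∀ j, y j ∈ V)
    {w : Fin n → Ω[K⁄ℂ]} (hw : ∀ j, Cmb V.toSubring w (D ℂ K (y j))) (a : MvPolynomial σ ℂ) :
    aeval y a ∈ V ∧ Cmb V.toSubring w (D ℂ K (aeval y a)) := by
  induction a using MvPolynomial.induction_on with
  | C c => exact ⟨by simpa using hc c, by simpa using Cmb.zero⟩
  | add p q h h' =>
    rw [map_add, map_add]
    exact ⟨V.add_mem _ _ h.1 h'.1, h.2.add h'.2⟩
  | mul_X p j h =>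
    rw [map_mul, aeval_X, Derivation.leibniz]
    exact ⟨V.mul_mem _ _ h.1 (hy j), ((hw j).smul h.1).add (h.2.smul (hy j))⟩

/-- Along a localization of a coordinate ring the form `dw y` generates. -/
theorem reg_iff (hc : ∀ c : ℂ, algebraMap ℂ K c ∈ V) {σ : Type} {u : σ → K} (hu : ∀ j, u j ∈ V)
    {y : Fin n → K} (hy : ∀ j, y j ∈ V)
    (hw : ∀ j, Cmb V.toSubring (fun j => D ℂ K (y j)) (D ℂ K (u j)))
    (hl : ∀ g ∈ V, ∃ a b : MvPolynomial σ ℂ, V.valuation (aeval u b) = 1 ∧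
      g * aeval u b = aeval u a) (η : ⋀[K]^n Ω[K⁄ℂ]) :
    η ∈ reg n V ↔ ∃ a ∈ V, η = a • dw y := by
  refine ⟨fun h => ?_, fun ⟨a, ha, e⟩ => e ▸ reg_smul ha (dw_mem hy)⟩
  induction h using AddSubgroup.closure_induction with
  | mem η h =>
    obtain ⟨b, hb, g, hg, rfl⟩ := h
    obtain ⟨a, ha, e⟩ := alt_cmb (S := V.toSubring) (w := fun j => D ℂ K (y j))
      (exteriorPower.ιMulti K n) (v := fun j => D ℂ K (g j)) fun j => by
        obtain ⟨p, q, h1, h2⟩ := hl _ (hg j)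
        have h3 := congrArg (D ℂ K) h2
        rw [Derivation.leibniz] at h3
        have e : D ℂ K (g j) = (aeval u q)⁻¹ • (D ℂ K (aeval u p) - g j • D ℂ K (aeval u q)) := by
          rw [← h3, add_sub_cancel_left, inv_smul_smul₀ (ne_zero_of_val h1)]
        rw [e]
        exact (((D_aeval hc hu hw p).2).sub ((D_aeval hc hu hw q).2.smul (hg j))).smul
          (inv_mem_of_val h1)
    exact ⟨b * a, V.mul_mem _ _ hb ha, by rw [dw, e, smul_smul]; rfl⟩
  | zero => exact ⟨0, V.zero_mem, (zero_smul _ _).symm⟩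
  | add x y _ _ h h' =>
    obtain ⟨a, ha, rfl⟩ := h
    obtain ⟨b, hb, rfl⟩ := h'
    exact ⟨a + b, V.add_mem _ _ ha hb, (add_smul _ _ _).symm⟩
  | neg x _ h =>
    obtain ⟨a, ha, rfl⟩ := h
    exact ⟨-a, V.neg_mem _ ha, (neg_smul _ _).symm⟩

theorem ordF_smul {η : ⋀[K]^n Ω[K⁄ℂ]} (h0 : η ≠ 0)
    (h : ∀ ω, ω ∈ reg n V ↔ ∃ a ∈ V, ω = a • η) (g : K) : ordF V (g • η) = ord V g := by
  rw [ordF_def]
  unfold ord
  congr 1
  ext r
  refine exists_congr fun t => and_congr_right fun _ => ?_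
  rw [h, smul_smul]
  exact ⟨fun ⟨a, ha, e⟩ => smul_left_injective K h0 e ▸ ha, fun h1 => ⟨_, h1, rfl⟩⟩

/-- A lower bound for the order of a form. -/
theorem le_ordF {ω : ⋀[K]^n Ω[K⁄ℂ]} {r : ℤ} (hr : r ≤ 0) {t : V} (ht : Irreducible t)
    (h : (t : K) ^ (-r) • ω ∈ reg n V) : r ≤ ordF V ω := by
  rw [ordF_def]
  by_cases hb : BddAbove {r : ℤ | ∃ t : V, Irreducible t ∧ (t : K) ^ (-r) • ω ∈ reg n V}
  · exact le_csSup hb ⟨t, ht, h⟩
  · rw [Int.csSup_of_not_bddAbove hb]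
    exact hr

/-- Forms with logarithmic poles have a pole of order at most one. -/
theorem log_reg {t : V} (ht : (t : K) ≠ 0) {a b g : Fin n → K} (ha : ∀ j, a j ∈ V)
    (hb : ∀ j, b j ∈ V) (hg : ∀ j, g j ∈ V) :
    (t : K) • exteriorPower.ιMulti K n
      (fun j => a j • ((t : K)⁻¹ • D ℂ K (t : K)) + b j • D ℂ K (g j)) ∈ reg n V := by
  classical
  have e := (exteriorPower.ιMulti K n (M := Ω[K⁄ℂ])).map_add_univ
    (fun j => a j • ((t : K)⁻¹ • D ℂ K (t : K))) (fun j => b j • D ℂ K (g j))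
  rw [show (fun j => a j • ((t : K)⁻¹ • D ℂ K (t : K)) + b j • D ℂ K (g j)) =
    (fun j => a j • ((t : K)⁻¹ • D ℂ K (t : K))) + fun j => b j • D ℂ K (g j) from rfl, e,
    Finset.smul_sum]
  refine sum_mem fun s _ => ?_
  have e1 : s.piecewise (fun j => a j • ((t : K)⁻¹ • D ℂ K (t : K))) (fun j => b j • D ℂ K (g j)) =
      fun j => (if j ∈ s then a j * (t : K)⁻¹ else b j) •
        D ℂ K (if j ∈ s then (t : K) else g j) := by
    funext j
    by_cases h : j ∈ s <;> simp [h, mul_smul]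
  rw [e1, AlternatingMap.map_smul_univ, smul_smul]
  by_cases hs : s.card ≤ 1
  · refine reg_smul ?_ (dw_mem fun j => ?_)
    · rw [Finset.prod_ite, Finset.filter_mem_eq_inter, Finset.univ_inter, ← mul_assoc]
      refine V.mul_mem _ _ ?_ (V.toSubring.prod_mem fun j _ => hb j)
      rcases Nat.le_one_iff_eq_zero_or_eq_one.1 hs with h | h
      · rw [Finset.card_eq_zero.1 h]
        simp
      · obtain ⟨j, rfl⟩ := Finset.card_eq_one.1 h
        rw [Finset.prod_singleton, mul_comm, inv_mul_cancel_right₀ ht]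
        exact ha j
    · split_ifs
      exacts [t.2, hg j]
  · obtain ⟨i, hi, j, hj, hij⟩ := Finset.one_lt_card.1 (not_le.1 hs)
    rw [AlternatingMap.map_eq_zero_of_eq _ _ (i := i) (j := j) (by simp [hi, hj]) hij, smul_zero]
    exact zero_mem _

/-- The logarithmic differential of an element along a discrete valuation ring. -/
theorem dlog_eq (hV : IsDiscreteValuationRing V) {t : V} (ht : Irreducible t) {y : K}
    (hy : y ≠ 0) : ∃ a ∈ V, ∃ b ∈ V, ∃ g ∈ V,
      y⁻¹ • D ℂ K y = a • ((t : K)⁻¹ • D ℂ K (t : K)) + b • D ℂ K g := by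
  obtain ⟨k, e⟩ := exists_val hV ht hy
  have h0 : (t : K) ≠ 0 := fun h => ht.ne_zero (Subtype.ext h)
  have h1 : V.valuation (y / (t : K) ^ k) = 1 := by
    rw [map_div₀, map_zpow₀, e, div_self (zpow_ne_zero _ (val_irr_pos ht).ne')]
  obtain ⟨u, hu⟩ : ∃ u, u = y / (t : K) ^ k := ⟨_, rfl⟩
  rw [← hu] at h1
  have h2 : y = u * (t : K) ^ k := by rw [hu, div_mul_cancel₀ _ (zpow_ne_zero _ h0)]
  have h3 := ne_zero_of_val h1
  refine ⟨k, intCast_mem V k, u⁻¹, inv_mem_of_val h1, u,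
    (V.valuation_le_one_iff u).1 h1.le, ?_⟩
  rw [h2, Derivation.leibniz, Derivation.leibniz_zpow, smul_add, ← Int.cast_smul_eq_zsmul K]
  simp only [smul_smul]
  congr 2
  · rw [zpow_sub_one₀ h0]
    field_simp
  · field_simp

end Pool.Agent.MP_776d16_ag.H79
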