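import Pool.Agent.MP_776d16_ag.H79.Chart

/-! The logarithmic volume form, and forms of a transcendence basis. -/

namespace Pool.Agent.MP_776d16_ag.H79

open MvPolynomial KaehlerDifferential

variable {K : Type} [Field K] [Algebra ℂ K] {n : ℕ}

/-- The logarithmic volume form of the chart `i`. -/
noncomputable def lf (ξ : Fin (n + 1) → K) (i : Fin (n + 1)) : ⋀[K]^n Ω[K⁄ℂ] :=
  exteriorPower.ιMulti K n fun j => (ch ξ i j)⁻¹ • D ℂ K (ch ξ i j)

theorem dlog_div {a b : K} (h1 : a ≠ 0) (h2 : b ≠ 0) :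
    (a / b)⁻¹ • D ℂ K (a / b) = a⁻¹ • D ℂ K a - b⁻¹ • D ℂ K b := by
  rw [Derivation.leibniz_div, smul_smul, smul_sub, smul_smul, smul_smul]
  congr 2 <;> field_simp

theorem dw_ne {y : Fin n → K} (hy : IsTranscendenceBasis ℂ y) : dw y ≠ 0 := by
  let R := MvPolynomial (Fin n) ℂ
  let F := FractionRing R
  let : Algebra R K := (aeval y : R →ₐ[ℂ] K).toRingHom.toAlgebra
  have e0 : ∀ a : R, algebraMap R K a = aeval y a := fun _ => rfl
  have : IsScalarTower ℂ R K := IsScalarTower.of_algebraMap_eq fun c => by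
    rw [e0]; exact (AlgHom.commutes _ c).symm
  have : FaithfulSMul R K := (faithfulSMul_iff_algebraMap_injective R K).2 hy.1
  let : Algebra F K := FractionRing.liftAlgebra R K
  have := hy.isAlgebraic
  have : Algebra.IsAlgebraic R K :=
    Algebra.IsAlgebraic.of_ringHom_of_comp_eq hy.1.aevalEquiv (RingHom.id K)
      hy.1.aevalEquiv.surjective Function.injective_id
      (RingHom.ext fun a => hy.1.algebraMap_aevalEquiv a)
  have : Algebra.IsAlgebraic F K := Algebra.IsAlgebraic.extendScalars (R := R)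
    (IsFractionRing.injective R F)
  have : CharZero F := algebraRat.charZero F
  have : Algebra.FormallyEtale F K := Algebra.FormallyEtale.of_isSeparable F K
  have : Algebra.FormallyEtale R F :=
    Algebra.FormallyEtale.of_isLocalization (Rₘ := F) (nonZeroDivisors R)
  have : Algebra.FormallyEtale R K := Algebra.FormallyEtale.comp R F K
  let B := (isBaseChange_of_formallyEtale ℂ R K).basis (mvPolynomialBasis ℂ (Fin n))
  have e : (fun j => D ℂ K (y j)) = B := by
    funext j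
    rw [IsBaseChange.basis_apply, mvPolynomialBasis_apply, KaehlerDifferential.map_D, e0, aeval_X]
  intro h2
  have h3 := exteriorPower.alternatingMapLinearEquiv_apply_ιMulti B.det B
  rw [dw, e] at h2
  rw [h2, map_zero, Module.Basis.det_self] at h3
  exact zero_ne_one h3

variable {ξ : Fin (n + 1) → K} (h : ∀ i, ξ i ≠ 0) {V : ValuationSubring K}

include h

omit [Algebra ℂ K] in
theorem prod_ch (i : Fin (n + 1)) : ∏ j, ch ξ i j = ∏ a, ξ a / ξ i := by
  rw [Fin.prod_univ_succAbove _ i, div_self (h i), one_mul]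
  rfl

theorem lf_eq (i : Fin (n + 1)) : lf ξ i = (∏ a, ξ a / ξ i)⁻¹ • dw (ch ξ i) := by
  rw [lf, AlternatingMap.map_smul_univ, Finset.prod_inv_distrib, prod_ch h, dw]

omit [Algebra ℂ K] in
theorem prod_ne (i : Fin (n + 1)) (s : Finset (Fin (n + 1))) : ∏ a ∈ s, ξ a / ξ i ≠ 0 :=
  Finset.prod_ne_zero_iff.2 fun a _ => div_ne_zero (h a) (h i)

theorem lf_ne (h0 : dw (ch ξ 0) ≠ 0) : lf ξ 0 ≠ 0 := by
  rw [lf_eq h]
  exact smul_ne_zero (inv_ne_zero (prod_ne h 0 _)) h0

theorem lf_cmb (S : Subring K) (i i' : Fin (n + 1)) (j : Fin n) :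
    Cmb S (fun j => (ch ξ i j)⁻¹ • D ℂ K (ch ξ i j)) ((ch ξ i' j)⁻¹ • D ℂ K (ch ξ i' j)) := by
  have key : ∀ a, Cmb S (fun j => (ch ξ i j)⁻¹ • D ℂ K (ch ξ i j))
      ((ξ a)⁻¹ • D ℂ K (ξ a) - (ξ i)⁻¹ • D ℂ K (ξ i)) := by
    intro a
    refine i.succAboveCases ?_ (fun j => ?_) a
    · rw [sub_self]; exact Cmb.zero
    · rw [← dlog_div (h _) (h _)]; exact Cmb.self j
  have := (key (i'.succAbove j)).sub (key i')
  rwa [sub_sub_sub_cancel_right, ← dlog_div (h _) (h _)] at this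

theorem lf_unit (h0 : lf ξ 0 ≠ 0) (V : ValuationSubring K) (i : Fin (n + 1)) :
    ∃ a : K, V.valuation a = 1 ∧ lf ξ 0 = a • lf ξ i := by
  obtain ⟨a, h0, h1, h2, e⟩ := alt_unit (S := V.toSubring) (exteriorPower.ιMulti K n)
    (lf_cmb h _ 0 i) (lf_cmb h _ i 0) h0
  refine ⟨a⁻¹, by rw [map_inv₀, val_eq_one h0 h1 h2, inv_one], ?_⟩
  change lf ξ i = a • lf ξ 0 at e
  rw [e, inv_smul_smul₀ h0]

theorem lf_reg (hV : IsDiscreteValuationRing V) {t : V} (ht : Irreducible t) (i : Fin (n + 1)) :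
    (t : K) • lf ξ i ∈ reg n V := by
  choose a ha b hb g hg e using fun j : Fin n =>
    dlog_eq hV ht (y := ch ξ i j) (div_ne_zero (h _) (h _))
  rw [lf, funext e]
  exact log_reg (fun h => ht.ne_zero (Subtype.ext h)) ha hb hg

end Pool.Agent.MP_776d16_ag.H79
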