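import Pool.Agent.MP_776d16_ag.H79.Proj

/-! The pairs given by projective space and some coordinate hyperplanes. -/

namespace Pool.Agent.MP_776d16_ag.H79

open MvPolynomial KaehlerDifferential Pool.Agent.MP_776d16_ag.H55

theorem alg_of_fr {K : Type} [Field K] [Algebra ℂ K] {n : ℕ} (y : Fin n → K)
    (h : ∀ g : K, ∃ a b : MvPolynomial (Fin n) ℂ, aeval y b ≠ 0 ∧ g * aeval y b = aeval y a) :
    Algebra.IsAlgebraic (Algebra.adjoin ℂ (Set.range y)) K := by
  refine ⟨fun g => ?_⟩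
  obtain ⟨a, b, h1, h2⟩ := h g
  have key : ∀ a : MvPolynomial (Fin n) ℂ,
      IsAlgebraic (Algebra.adjoin ℂ (Set.range y)) (aeval y a) := fun a =>
    isAlgebraic_algebraMap (⟨aeval y a, by
      rw [Algebra.adjoin_range_eq_range_aeval]; exact ⟨a, rfl⟩⟩ : Algebra.adjoin ℂ (Set.range y))
  exact IsAlgebraic.of_mul (mem_nonZeroDivisors_of_ne_zero h1) (key b)
    (by rw [mul_comm, h2]; exact key a)

theorem exists_gen (n : ℕ) :
    ∃ (K : Type) (_ : Field K) (_ : Algebra ℂ K) (ξ : Fin (n + 1) → K), Gen ξ := by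
  let R := MvPolynomial (Fin n) ℂ
  let K := FractionRing R
  let ξ : Fin (n + 1) → K := Fin.cons 1 fun j => algebraMap R K (X j)
  have hinj := IsFractionRing.injective R K
  have h0 : ch ξ 0 = fun j => algebraMap R K (X j) := by
    funext j; simp [ch, ξ]
  have h1 : ∀ a : R, aeval (ch ξ 0) a = algebraMap R K a := fun a => by
    have : aeval (ch ξ 0) = IsScalarTower.toAlgHom ℂ R K :=
      MvPolynomial.algHom_ext fun j => by rw [aeval_X, h0]; rfl
    rw [this]; rfl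
  have hne : ∀ i, ξ i ≠ 0 := fun i => by
    refine Fin.cases ?_ (fun j => ?_) i
    · simp [ξ]
    · simpa [ξ] using X_ne_zero j
  have hfr : ∀ i (g : K), ∃ a b : R, aeval (ch ξ i) b ≠ 0 ∧
      g * aeval (ch ξ i) b = aeval (ch ξ i) a := by
    intro i g
    obtain ⟨a, b, hb, rfl⟩ := IsFractionRing.div_surjective (A := R) g
    have hb' : algebraMap R K b ≠ 0 := by simpa using nonZeroDivisors.ne_zero hb
    obtain ⟨e, F, G, -, -, -, -, h3⟩ := ratio_of (a := a) (b := b) (hne 0) (by rwa [h1])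
      (by rw [h1, h1, div_mul_cancel₀ _ hb'])
    exact ⟨_, _, of_ratio (hne i) h3⟩
  have hind : AlgebraicIndependent ℂ (ch ξ 0) := fun a b e => hinj (by rwa [← h1, ← h1])
  have hdim : Algebra.trdeg ℂ K = n := by
    have := (hind.isTranscendenceBasis_iff_isAlgebraic.2 (alg_of_fr _ (hfr 0))).cardinalMk_eq_trdeg
    simpa using this.symm
  refine ⟨K, inferInstance, inferInstance, ξ, hne, fun i => ⟨?_, fun g => ?_⟩, ?_, hdim⟩
  · have := alg_of_fr _ (hfr i)
    exact (Algebra.IsAlgebraic.isTranscendenceBasis_of_le_trdeg_of_finite ℂ (ch ξ i)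
      (by simp [hdim])).1
  · obtain ⟨a, b, h2, h3⟩ := hfr i g
    exact ⟨a, b, fun e => h2 (by rw [e, map_zero]), h3⟩
  · let B := (mvPolynomialBasis ℂ (Fin n)).ofIsLocalizedModule K (nonZeroDivisors R)
      (KaehlerDifferential.map ℂ ℂ R K)
    have e : (fun j => D ℂ K (ch ξ 0 j)) = B := by
      funext j
      rw [h0, Module.Basis.ofIsLocalizedModule_apply, mvPolynomialBasis_apply,
        KaehlerDifferential.map_D]
    intro h2
    have h3 := exteriorPower.alternatingMapLinearEquiv_apply_ιMulti B.det B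
    rw [dw, e] at h2
    rw [h2, map_zero, Module.Basis.det_self] at h3
    exact zero_ne_one h3

variable {K : Type} [Field K] [Algebra ℂ K] {n : ℕ} {ξ : Fin (n + 1) → K}

open Classical in
/-- The pair of projective space and the hyperplanes with index in `J`. -/
noncomputable def Gen.pair (h : Gen ξ) (J : Finset (Fin n)) (hJ : J.Nonempty) :
    FanoPair n ξ (J.image h.H) where
  normal := h.normal
  nonempty := hJ.image _
  prime V hV := by
    obtain ⟨l, -, rfl⟩ := Finset.mem_image.1 hV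
    exact (h.H_pt l).1
  ω := lf ξ 0
  ω_ne := h.lf_ne
  m := 1
  k := (J.image Fin.succ)ᶜ.card
  m_pos := one_pos
  k_pos := Finset.card_pos.2 ⟨0, by simp⟩
  f := (∏ a ∈ (J.image Fin.succ)ᶜ, ξ a)⁻¹
  f_ne := inv_ne_zero (Finset.prod_ne_zero_iff.2 fun a _ => h.ne a)
  cartier V hV x hx i hi := by
    obtain ⟨g, h1, h2⟩ := h.ordF_prime hV hx hi
    have e : (∏ a ∈ (J.image Fin.succ)ᶜ, ξ a)⁻¹ * ξ i ^ (J.image Fin.succ)ᶜ.card =
        (∏ a ∈ (J.image Fin.succ)ᶜ, ξ a / ξ i)⁻¹ := by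
      rw [Finset.prod_div_distrib, Finset.prod_const, inv_div, div_eq_inv_mul]
    have h3 := inv_ne_zero (prod_ne h.ne i (J.image Fin.succ)ᶜ)
    rw [← Finset.prod_mul_prod_compl (J.image Fin.succ), mul_inv, map_mul, map_inv₀,
      Finset.prod_image fun _ _ _ _ e => Fin.succ_injective _ e, map_prod] at h1
    rw [e, h2, Nat.cast_one, one_mul]
    split_ifs with hD
    · obtain ⟨l, hl, rfl⟩ := Finset.mem_image.1 hD
      have h4 : i ≠ l.succ := fun e => hi (e ▸ (h.mem_center_H l).1 hx)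
      obtain ⟨t, ht, h5⟩ := h.H_irr l h4
      rw [Finset.prod_eq_single_of_mem l hl fun b _ hb =>
        h.H_val l (fun e => hb (Fin.succ_injective _ e)) h4, ← h5] at h1
      refine ord_div hV.1 ht h3 ?_
      rw [h1, mul_comm, mul_inv_cancel_left₀ (val_irr_pos ht).ne']
    · rw [Finset.prod_eq_one fun l hl => by
        by_contra h4
        exact hD (Finset.mem_image.2 ⟨l, hl, (h.eq_H hV hx hi h4).symm⟩), inv_one, one_mul] at h1
      rw [add_zero]
      exact ord_congr hV.1 h3 h1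

open Classical in
theorem Gen.pair_lc (h : Gen ξ) (J : Finset (Fin n)) (hJ : J.Nonempty) : (h.pair J hJ).IsLC := by
  intro V hV x hx i hi
  have e : (∏ a ∈ (J.image Fin.succ)ᶜ, ξ a)⁻¹ * ξ i ^ (J.image Fin.succ)ᶜ.card =
      (∏ a ∈ (J.image Fin.succ)ᶜ, ξ a / ξ i)⁻¹ := by
    rw [Finset.prod_div_distrib, Finset.prod_const, inv_div, div_eq_inv_mul]
  have h1 : -1 ≤ ordF V (lf ξ 0) := by
    have := hV.1
    obtain ⟨t, ht⟩ := IsDiscreteValuationRing.exists_irreducible V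
    refine le_ordF (by norm_num) ht ?_
    rw [neg_neg, zpow_one]
    exact lf_reg h.ne hV.1 ht 0
  have h2 := ord_inv_nonpos hV.1 (prod_ne h.ne i (J.image Fin.succ)ᶜ)
    (V.toSubring.prod_mem fun a _ => coord_mem hx hi a)
  simp only [FanoPair.disc, Gen.pair, e, Nat.cast_one, div_one]
  exact_mod_cast by omega

open Classical in
theorem Gen.pair_dlt (h : Gen ξ) (J : Finset (Fin n)) (hJ : J.Nonempty) :
    (h.pair J hJ).IsDlt := by
  refine ⟨{1}, fun F hF => ⟨0, hF ▸ isHomogeneous_one _ _⟩, fun x _ => ?_, fun V _ h1 x hx => ?_⟩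
  · refine h.snc _ (fun V hV => ?_) hJ.choose.pos x
    obtain ⟨l, -, rfl⟩ := Finset.mem_image.1 hV
    exact ⟨l, rfl⟩
  · simpa [zeroSet] using h1 hx

open Classical in
theorem Gen.not_rc (h : Gen ξ) (J : Finset (Fin n)) (hJ : 1 < J.card) :
    ¬ LogRC (var ξ) (supp ξ (J.image h.H)) := by
  intro hRC
  obtain ⟨a, ha, b, hb, hab⟩ := Finset.one_lt_card.1 hJ
  have hs : ∀ x, x ∈ supp ξ (J.image h.H) ↔ ∃ l ∈ J, x.rep l.succ = 0 := fun x => by
    simp [supp, h.mem_center_H]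
  obtain ⟨p, hp⟩ := exists_pt a.succ (Fin.succ_ne_zero a)
  have hw : (fun _ => 1 : Fin (n + 1) → ℂ) ≠ 0 := fun e => by simpa using congrFun e 0
  obtain ⟨Γ, hΓ, -, h1, -, -, r, hr⟩ := hRC p (h.mem_var p) (Projectivization.mk ℂ _ hw)
    ⟨h.mem_var _, by simp [hs, rep_mk]⟩
  obtain ⟨s, h2, h3⟩ := meets_hypersurface hΓ (isHomogeneous_X ℂ b.succ) one_pos
  have h4 : s.rep b.succ = 0 := by simpa [zeroSet] using h3
  have e1 : p ∈ ({r} : Set (PP n)) := hr ▸ ⟨h1, (hs p).2 ⟨a, ha, (hp _).2 rfl⟩⟩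
  have e2 : s ∈ ({r} : Set (PP n)) := hr ▸ ⟨h2, (hs s).2 ⟨b, hb, h4⟩⟩
  rw [e2, ← e1] at h4
  exact hab (Fin.succ_injective _ ((hp _).1 h4)).symm

end Pool.Agent.MP_776d16_ag.H79
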