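import Pool.Agent.MP_776d16_ag.H79.Main
import Pool.Agent.MP_776d16_ag.H79.Cone3

/-! Rational curves on the cone over the Fermat cubic curve. -/

namespace Pool.Agent.MP_776d16_ag.H79

open MvPolynomial Pool.Agent.MP_776d16_ag.H55

theorem cubic_poly (a b c : Polynomial ℂ) (h : a ^ 3 + b ^ 3 + c ^ 3 = 0) :
    ∃ (g : Polynomial ℂ) (α β γ : ℂ), a = Polynomial.C α * g ∧ b = Polynomial.C β * g ∧
      c = Polynomial.C γ * g := by
  classical
  by_cases hab : a = 0 ∧ b = 0
  · obtain ⟨rfl, rfl⟩ := hab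
    have hc : c = 0 := by simpa using h
    exact ⟨0, 0, 0, 0, by simp, by simp, by simp [hc]⟩
  have hd : gcd a b ≠ 0 := by
    intro h0
    exact hab ((gcd_eq_zero_iff a b).1 h0)
  obtain ⟨a', b', ha', hb', hu⟩ := extract_gcd a b
  have hcop : IsCoprime a' b' := (gcd_isUnit_iff a' b').1 hu
  set d := gcd a b with hdd
  have hdc : d ∣ c := by
    rw [← IsIntegrallyClosed.pow_dvd_pow_iff (n := 3) (by norm_num)]
    refine ⟨-(a' ^ 3 + b' ^ 3), ?_⟩
    have : c ^ 3 = -(a ^ 3 + b ^ 3) := by linear_combination h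
    rw [this]
    conv_lhs => rw [ha', hb']
    ring
  obtain ⟨c', hc'⟩ := hdc
  have h' : a' ^ 3 + b' ^ 3 + c' ^ 3 = 0 := by
    have : d ^ 3 * (a' ^ 3 + b' ^ 3 + c' ^ 3) = 0 := by
      rw [← h]
      conv_rhs => rw [ha', hb', hc']
      ring
    rcases mul_eq_zero.1 this with h1 | h1
    · exact absurd (pow_eq_zero_iff (by norm_num) |>.1 h1) hd
    · exact h1
  have key : a'.natDegree = 0 ∧ b'.natDegree = 0 ∧ c'.natDegree = 0 := by
    by_cases ha0 : a' = 0
    · subst ha0
      have hb : IsUnit b' := isCoprime_zero_left.1 hcop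
      have hc : IsUnit c' := by
        have : c' ^ 3 = -b' ^ 3 := by linear_combination h'
        have h3 : IsUnit (c' ^ 3) := by rw [this]; exact (hb.pow 3).neg
        exact (isUnit_pow_iff (by norm_num)).1 h3
      exact ⟨by simp, Polynomial.natDegree_eq_zero_of_isUnit hb,
        Polynomial.natDegree_eq_zero_of_isUnit hc⟩
    by_cases hb0 : b' = 0
    · subst hb0
      have ha : IsUnit a' := isCoprime_zero_right.1 hcop
      have hc : IsUnit c' := by
        have : c' ^ 3 = -a' ^ 3 := by linear_combination h'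
        have h3 : IsUnit (c' ^ 3) := by rw [this]; exact (ha.pow 3).neg
        exact (isUnit_pow_iff (by norm_num)).1 h3
      exact ⟨Polynomial.natDegree_eq_zero_of_isUnit ha, by simp,
        Polynomial.natDegree_eq_zero_of_isUnit hc⟩
    by_cases hc0 : c' = 0
    · subst hc0
      have ha : IsUnit a' := by
        have h1 : a' ∣ b' ^ 3 := ⟨-a' ^ 2, by linear_combination h'⟩
        exact (hcop.pow_right (n := 3)).isUnit_of_dvd h1
      have hb : IsUnit b' := by
        have h1 : b' ∣ a' ^ 3 := ⟨-b' ^ 2, by linear_combination h'⟩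
        exact (hcop.symm.pow_right (n := 3)).isUnit_of_dvd h1
      exact ⟨Polynomial.natDegree_eq_zero_of_isUnit ha,
        Polynomial.natDegree_eq_zero_of_isUnit hb, by simp⟩
    exact Polynomial.flt_catalan (p := 3) (q := 3) (r := 3) (by norm_num) (by norm_num)
      (by norm_num) (by norm_num) (by norm_num) (by norm_num) (by norm_num) ha0 hb0 hc0 hcop
      one_ne_zero one_ne_zero one_ne_zero (by simpa using h')
  obtain ⟨k1, k2, k3⟩ := key
  refine ⟨d, a'.coeff 0, b'.coeff 0, c'.coeff 0, ?_, ?_, ?_⟩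
  · rw [← Polynomial.eq_C_of_natDegree_eq_zero k1, mul_comm]; exact ha'
  · rw [← Polynomial.eq_C_of_natDegree_eq_zero k2, mul_comm]; exact hb'
  · rw [← Polynomial.eq_C_of_natDegree_eq_zero k3, mul_comm]; exact hc'

theorem no_curve {N : ℕ} (i j l : Fin (N + 1)) (p q : PP N)
    (hpq : p.rep i * q.rep j ≠ p.rep j * q.rep i) :
    ¬ ∃ Γ : Set (PP N), IsRationalCurve Γ ∧
      Γ ⊆ zeroSet (X i ^ 3 + X j ^ 3 + X l ^ 3) ∧ p ∈ Γ ∧ q ∈ Γ := by
  rintro ⟨Γ, ⟨e, F, hF, h, rfl, hnt⟩, hsub, ⟨t₁, ht₁, hp⟩, ⟨t₂, ht₂, hq⟩⟩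
  have he := deg_pos hF h hnt
  have hhom : (X i ^ 3 + X j ^ 3 + X l ^ 3 : MvPolynomial (Fin (N + 1)) ℂ).IsHomogeneous 3 :=
    ((isHomogeneous_X_pow _ _).add (isHomogeneous_X_pow _ _)).add (isHomogeneous_X_pow _ _)
  have hall : ∀ t : Fin 2 → ℂ, eval t (F i) ^ 3 + eval t (F j) ^ 3 + eval t (F l) ^ 3 = 0 := by
    intro t
    by_cases ht : t = 0
    · have h0 : ∀ u, eval t (F u) = 0 := by
        intro u
        have := eval_smul_homog (hF u) 0 t
        rw [zero_smul, ← ht] at this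
        rw [this]; simp [he.ne']
      simp [h0]
    · have := hsub ⟨t, ht, rfl⟩
      rw [mk_mem_zeroSet hhom] at this
      simpa using this
  -- restriction to the line through t₁ and t₂
  let L : MvPolynomial (Fin 2) ℂ →ₐ[ℂ] Polynomial ℂ :=
    aeval fun u => Polynomial.C (t₁ u) + Polynomial.C (t₂ u - t₁ u) * Polynomial.X
  have hL : ∀ (s : ℂ) (G : MvPolynomial (Fin 2) ℂ),
      (L G).eval s = eval (fun u => t₁ u + (t₂ u - t₁ u) * s) G := by
    intro s G
    have : (Polynomial.aeval s : Polynomial ℂ →ₐ[ℂ] ℂ).comp L =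
        aeval (fun u => t₁ u + (t₂ u - t₁ u) * s) := by
      ext u; simp [L]
    have h2 := DFunLike.congr_fun this G
    simpa [Polynomial.aeval_def, aeval_eq_eval] using h2
  have hpoly : L (F i) ^ 3 + L (F j) ^ 3 + L (F l) ^ 3 = 0 := by
    apply Polynomial.funext
    intro s
    simp only [Polynomial.eval_add, Polynomial.eval_pow, hL, Polynomial.eval_zero]
    exact hall _
  obtain ⟨g, α, β, γ, h0, h1, h2⟩ := cubic_poly _ _ _ hpoly
  have e1 : ∀ G, eval t₁ G = (L G).eval 0 := by intro G; rw [hL]; simp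
  have e2 : ∀ G, eval t₂ G = (L G).eval 1 := by intro G; rw [hL]; simp
  obtain ⟨a, ha⟩ := Projectivization.exists_smul_eq_mk_rep ℂ _ (h t₁ ht₁)
  obtain ⟨b, hb⟩ := Projectivization.exists_smul_eq_mk_rep ℂ _ (h t₂ ht₂)
  rw [← hp] at ha
  rw [← hq] at hb
  have hp' : ∀ u, p.rep u = a * (L (F u)).eval 0 := by
    intro u; rw [← ha, ← e1]; simp [Units.smul_def]
  have hq' : ∀ u, q.rep u = b * (L (F u)).eval 1 := by
    intro u; rw [← hb, ← e2]; simp [Units.smul_def]
  apply hpq
  simp only [hp', hq', h0, h1, Polynomial.eval_mul, Polynomial.eval_C]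
  ring

theorem cone_pair (m : ℕ) : ∃ (K : Type) (_ : Field K) (_ : Algebra ℂ K) (ξ : Fin (m + 5) → K)
    (H : ValuationSubring K) (P : FanoPair (m + 3) ξ {H}), P.IsLC ∧ ∃ a b : Fin (m + 5),
      (∃ p ∈ var ξ \ supp ξ {H}, ∃ q ∈ var ξ \ supp ξ {H},
        p.rep a * q.rep b ≠ p.rep b * q.rep a) ∧
      ∀ p q : PP (m + 4), p.rep a * q.rep b ≠ p.rep b * q.rep a →
        ¬ ∃ Γ, IsRationalCurve Γ ∧ Γ ⊆ var ξ ∧ p ∈ Γ ∧ q ∈ Γ := by
  classical
  let a : Fin (m + 4) := 0
  let b : Fin (m + 4) := Fin.succ 0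
  let c : Fin (m + 4) := Fin.succ (Fin.succ 0)
  let s : Fin (m + 4) := Fin.succ (Fin.succ (Fin.succ 0))
  have ab : b.succ ≠ a.succ := fun e => by
    have := congrArg Fin.val e
    simp only [a, b, Fin.val_succ, Fin.val_zero] at this
    omega
  have ac : c.succ ≠ a.succ := fun e => by
    have := congrArg Fin.val e
    simp only [a, c, Fin.val_succ, Fin.val_zero] at this
    omega
  have bc : b.succ ≠ c.succ := fun e => by
    have := congrArg Fin.val e
    simp only [b, c, Fin.val_succ, Fin.val_zero] at this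
    omega
  have sa : s.succ ≠ a.succ := fun e => by
    have := congrArg Fin.val e
    simp only [a, s, Fin.val_succ, Fin.val_zero] at this
    omega
  have sb : s.succ ≠ b.succ := fun e => by
    have := congrArg Fin.val e
    simp only [b, s, Fin.val_succ, Fin.val_zero] at this
    omega
  have sc : s.succ ≠ c.succ := fun e => by
    have := congrArg Fin.val e
    simp only [c, s, Fin.val_succ, Fin.val_zero] at this
    omega
  let T : Finset (Fin (m + 3 + 2)) := {a.succ, b.succ, c.succ}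
  have e1 : cub T = X a.succ ^ 3 + X b.succ ^ 3 + X c.succ ^ 3 := sum_tri ab ac bc _
  have e2 : deh 0 (cub T) = X a ^ 3 + X b ^ 3 + X c ^ 3 := by
    have := fun j : Fin (m + 4) => deh_succ (0 : Fin (m + 5)) j
    simp only [Fin.succAbove_zero] at this
    simp only [e1, map_add, map_pow, this]
  have hp : Prime (deh 0 (cub T)) := e2 ▸ prime_fermat (m + 1)
  have hp' : Prime (cub T) := by
    rw [← MulEquiv.prime_iff (finSuccEquiv ℂ (m + 4)), e1]
    simp only [map_add, map_pow, finSuccEquiv_X_succ]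
    simp only [← map_pow, ← map_add]
    exact Polynomial.prime_C_iff.2 (prime_fermat (m + 1))
  have hX : ∀ j, ¬ deh 0 (cub T) ∣ X j := fun j hj => by
    have h1 := map_dvd (eval fun u => if u = j then (1 : ℂ) else if u = a then -1 else
      if u = b then (if j = a then -1 else if j = c then 0 else 1) else 0) hj
    have ab' : b ≠ a := fun e => ab (congrArg _ e)
    have ac' : c ≠ a := fun e => ac (congrArg _ e)
    have bc' : c ≠ b := fun e => bc (congrArg _ e.symm)
    rw [e2] at h1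
    by_cases h2 : j = a
    · subst h2
      norm_num [ab', ac', bc'] at h1
    by_cases h3 : j = b
    · subst h3
      norm_num [ab', ac', bc', ab'.symm] at h1
    by_cases h4 : j = c
    · subst h4
      norm_num [ab', ac', bc', ac'.symm, bc'.symm] at h1
    · norm_num [ab', ac', bc', h2, h4, Ne.symm h2, Ne.symm h3, Ne.symm h4] at h1
  obtain ⟨K, _, _, ξ, h⟩ := exists_cone (T := T)
    (Finset.card_eq_three.2 ⟨_, _, _, ab.symm, ac.symm, bc, rfl⟩)
    (by simp [T, (Fin.succ_ne_zero _).symm]) hp hp' hX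
  obtain ⟨H, P, h1, h2⟩ := h.pair (s := s) (by simp only [T, Finset.mem_insert,
    Finset.mem_singleton, sa, sb, sc, or_self, not_false_eq_true]) hp (by omega)
  have h3 : ∀ x, x ∈ var ξ ↔ x ∈ zeroSet (cub T) := fun x => by
    rw [h.mem_var]; simp [zeroSet, cub]
  have h4 : ∀ u v : Fin (m + 5), u ≠ v → s.succ ≠ u → s.succ ≠ v →
      eval (fun w => if w = u then (0 : ℂ) else if w = v then -1 else 1) (cub T) = 0 →
      ∃ p ∈ var ξ \ supp ξ {H}, ∀ w, p.rep w = 0 ↔ w = u := fun u v h5 h6 h7 h8 => by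
    have h0 : (fun w => if w = u then (0 : ℂ) else if w = v then -1 else 1) ≠ 0 := fun e => by
      simpa [h6, h7] using congrFun e s.succ
    refine ⟨Projectivization.mk ℂ _ h0, ⟨(h3 _).2 ((mk_mem_zeroSet (cub_homog T) _ h0).2 h8),
      fun h9 => ?_⟩, fun w => ?_⟩
    · simpa [rep_mk, h6, h7] using h2 _ h9
    · rw [rep_mk]
      split_ifs with h9 <;> simp [h9]
  obtain ⟨p, p1, p2⟩ := h4 c.succ b.succ bc.symm sc sb (by
    simp only [e1, map_add, map_pow, eval_X, if_neg ac.symm, if_neg ab.symm, if_neg bc, if_true]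
    norm_num)
  obtain ⟨q, q1, q2⟩ := h4 b.succ c.succ bc sb sc (by
    simp only [e1, map_add, map_pow, eval_X, if_neg ac.symm, if_neg ab.symm, if_neg bc.symm,
      if_true]
    norm_num)
  refine ⟨K, _, _, ξ, H, P, h1, a.succ, b.succ, ⟨p, p1, q, q1, ?_⟩, fun p q h5 ⟨Γ, g1, g2, g3⟩ =>
    no_curve _ _ c.succ p q h5 ⟨Γ, g1, fun x hx => e1 ▸ (h3 x).1 (g2 hx), g3⟩⟩
  rw [(q2 _).2 rfl, mul_zero]
  exact (mul_ne_zero (fun e => bc ((p2 _).1 e)) fun e => ab ((q2 _).1 e).symm).symm

end Pool.Agent.MP_776d16_ag.H79
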