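import Pool.Agent.MP_776d16_ag.H79.Log

/-! Projective space with coordinate hyperplanes. -/

namespace Pool.Agent.MP_776d16_ag.H79

open MvPolynomial KaehlerDifferential Pool.Agent.MP_776d16_ag.H55

variable {K : Type} [Field K] [Algebra ℂ K] {n : ℕ}

/-- `ξ` is a generic point of projective space. -/
structure Gen (ξ : Fin (n + 1) → K) : Prop where
  ne : ∀ i, ξ i ≠ 0
  fr : ∀ i, Fr ((aeval (ch ξ i) : MvPolynomial (Fin n) ℂ →ₐ[ℂ] K) : MvPolynomial (Fin n) ℂ →+* K)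
  top : dw (ch ξ 0) ≠ 0
  dim : Algebra.trdeg ℂ K = n

variable {ξ : Fin (n + 1) → K} (h : Gen ξ) {x : PP n} {i : Fin (n + 1)} {V : ValuationSubring K}

include h

theorem Gen.mem_var (x : PP n) : x ∈ var ξ := by
  intro e F hF h0
  obtain ⟨i, hi⟩ := exists_chart x
  rw [aeval_deh (h.ne i) hF] at h0
  have h1 : deh i F = 0 := by
    by_contra h1
    exact mul_ne_zero (pow_ne_zero _ (h.ne i)) ((h.fr i).ne h1) h0
  rw [eval_deh hi hF, h1, map_zero, mul_zero]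

theorem Gen.center_W (hi : x.rep i ≠ 0) {p : MvPolynomial (Fin n) ℂ} (hp : Prime p)
    (h0 : eval (ch x.rep i) p = 0) : x ∈ center ξ (W (h.fr i) hp) := by
  refine ⟨h.mem_var x, fun g hg => ?_⟩
  obtain ⟨a, b, h1, h2⟩ := (mem_loc (h.mem_var x) hi).1 hg
  refine ⟨a, b, ?_, h2⟩
  rintro ⟨c, rfl⟩
  exact h1 (by rw [map_mul, h0, zero_mul])

theorem Gen.prime_W (hi : x.rep i ≠ 0) {p : MvPolynomial (Fin n) ℂ} (hp : Prime p)
    (h0 : eval (ch x.rep i) p = 0) : IsPrimeDiv ξ (W (h.fr i) hp) := by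
  refine ⟨W_dvr _ hp, x, h.center_W hi hp h0, ?_⟩
  rintro g ⟨a, b, h1, h2⟩
  exact ⟨_, poly_mem_loc (h.mem_var x) hi a, _, poly_mem_loc (h.mem_var x) hi b,
    W_unit _ hp h1, h2⟩

theorem Gen.normal : IsNormalVar n ξ := by
  refine ⟨fun e => h.ne 0 (congrFun e 0), fun g => ?_, h.dim, fun x _ => ?_⟩
  · obtain ⟨a, b, h1, h2⟩ := (h.fr 0).fr g
    obtain ⟨e, F, G, -, -, -, -, h3⟩ := ratio_of (h.ne 0) ((h.fr 0).ne h1) h2
    exact ⟨F, G, h3⟩
  · obtain ⟨i, hi⟩ := exists_chart x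
    refine Subring.isIntegrallyClosedIn_iff.2 fun g hg => (mem_loc (h.mem_var x) hi).2 ?_
    exact exists_den (h.fr i) (eval (ch x.rep i)) fun p hp h0 => int_mem (h.center_W hi hp h0) hg

theorem Gen.eq_W (hV : IsPrimeDiv ξ V) (hx : x ∈ center ξ V) (hi : x.rep i ≠ 0) {j : Fin n}
    (hj : V.valuation (ξ (i.succAbove j) / ξ i) ≠ 1) : V = W (h.fr i) (X_prime (i := j)) :=
  H79.eq_W _ _ hV.1 (poly_mem hx hi) (prime_loc hV hx hi) (by simpa [ch] using hj)

/-- The coordinate hyperplane `x (l + 1) = 0`. -/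
noncomputable def Gen.H (l : Fin n) : ValuationSubring K := W (h.fr 0) (X_prime (i := l))

omit h in
theorem exists_pt (a : Fin (n + 1)) (ha : a ≠ 0) : ∃ x : PP n, ∀ b, x.rep b = 0 ↔ b = a := by
  classical
  have h0 : (fun b => if b = a then 0 else 1 : Fin (n + 1) → ℂ) ≠ 0 := fun e => by
    simpa [ha.symm] using congrFun e 0
  exact ⟨_, fun b => by rw [rep_mk _ h0]; simp⟩

theorem Gen.H_pt (l : Fin n) :
    IsPrimeDiv ξ (h.H l) ∧ ∃ x ∈ center ξ (h.H l), ∀ b, x.rep b = 0 ↔ b = l.succ := by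
  obtain ⟨x, hx⟩ := exists_pt l.succ (Fin.succ_ne_zero l)
  have h0 : x.rep 0 ≠ 0 := fun e => Fin.succ_ne_zero l ((hx 0).1 e).symm
  have h1 : eval (ch x.rep 0) (X l) = 0 := by simp [ch, (hx _).2 rfl]
  exact ⟨h.prime_W h0 _ h1, x, h.center_W h0 _ h1, hx⟩

theorem Gen.H_val (l : Fin n) {a b : Fin (n + 1)} (ha : a ≠ l.succ) (hb : b ≠ l.succ) :
    (h.H l).valuation (ξ a / ξ b) = 1 := by
  obtain ⟨-, x, hx, h1⟩ := h.H_pt l
  rw [map_div₀, val_coord hx (fun e => hb ((h1 b).1 e)) (fun e => ha ((h1 a).1 e)),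
    div_self ((Valuation.ne_zero_iff _).2 (h.ne b))]

theorem Gen.H_irr (l : Fin n) {b : Fin (n + 1)} (hb : b ≠ l.succ) :
    ∃ t : h.H l, Irreducible t ∧
      (h.H l).valuation (t : K) = (h.H l).valuation (ξ l.succ / ξ b) := by
  refine ⟨_, W_irr (h.fr 0) (X_prime (i := l)), ?_⟩
  have e : ξ l.succ / ξ b = ξ l.succ / ξ 0 * (ξ 0 / ξ b) := by
    rw [div_mul_div_cancel₀ (h.ne 0)]
  rw [e, map_mul, h.H_val l (Fin.succ_ne_zero l).symm hb, mul_one]
  simp [ch]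

theorem Gen.H_lt (l : Fin n) {b : Fin (n + 1)} (hb : b ≠ l.succ) :
    (h.H l).valuation (ξ l.succ / ξ b) < 1 := by
  obtain ⟨t, ht, e⟩ := h.H_irr l hb
  exact e ▸ val_irr_lt ht

theorem Gen.H_eq (l : Fin n) {j : Fin n} (hj : i.succAbove j = l.succ) :
    h.H l = W (h.fr i) (X_prime (i := j)) := by
  obtain ⟨h0, x, hx, h1⟩ := h.H_pt l
  have hi : i ≠ l.succ := hj ▸ (Fin.succAbove_ne i j).symm
  exact h.eq_W h0 hx (fun e => hi ((h1 i).1 e)) (by rw [hj]; exact (h.H_lt l hi).ne)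

theorem Gen.mem_center_H (l : Fin n) : x ∈ center ξ (h.H l) ↔ x.rep l.succ = 0 := by
  constructor
  · intro hx
    by_contra h0
    refine (h.H_lt l (Fin.succ_ne_zero l).symm).ne (val_eq_one (div_ne_zero (h.ne _) (h.ne _))
      (((h.H l).valuation_le_one_iff _).1 (h.H_lt l (Fin.succ_ne_zero l).symm).le) ?_)
    rw [inv_div]
    exact coord_mem hx h0 0
  · intro h0
    obtain ⟨i, hi⟩ := exists_chart x
    obtain ⟨j, hj⟩ := Fin.exists_succAbove_eq (x := l.succ) (y := i) fun e => hi (e ▸ h0)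
    rw [h.H_eq l hj]
    exact h.center_W hi _ (by simp [ch, hj, h0])

theorem Gen.H_inj : Function.Injective h.H := by
  intro l l' e
  by_contra hne
  have h1 := h.H_lt l (Fin.succ_ne_zero l).symm
  rw [e] at h1
  exact h1.ne (h.H_val l' (fun e => hne (Fin.succ_injective _ e)) (Fin.succ_ne_zero l').symm)

theorem Gen.eq_H (hV : IsPrimeDiv ξ V) (hx : x ∈ center ξ V) (hi : x.rep i ≠ 0) {l : Fin n}
    (hl : V.valuation (ξ l.succ / ξ i) ≠ 1) : V = h.H l := by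
  obtain ⟨j, hj⟩ := Fin.exists_succAbove_eq (x := l.succ) (y := i) fun e =>
    hl (by rw [e, div_self (h.ne i), map_one])
  rw [h.H_eq l hj]
  exact h.eq_W hV hx hi (by rwa [hj])

theorem Gen.snc (D : Finset (ValuationSubring K)) (hD : ∀ V ∈ D, ∃ l, V = h.H l) (hn : 0 < n)
    (x : PP n) : SncAt n ξ D x := by
  classical
  obtain ⟨i, hi⟩ := exists_chart x
  have hx := h.mem_var x
  refine ⟨fun j => aeval (ch ξ i) (X j - C (ch x.rep i j)), fun j => ?_, fun g hg => ?_,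
    fun V => if e : ∃ j, V = W (h.fr i) (X_prime (i := j)) then e.choose else ⟨0, hn⟩, ?_, ?_⟩
  · exact (mem_mx hx hi).2 ⟨X j - C (ch x.rep i j), 1, by simp, by rw [map_one, mul_one], by simp⟩
  · obtain ⟨a, b, h1, h2, h3⟩ := (mem_mx hx hi).1 hg
    obtain ⟨q, hq⟩ := taylor (ch x.rep i) a
    rw [h3, map_zero, zero_add] at hq
    refine ⟨fun j => _, fun j => div_mem_loc hx hi (q j) h1, ?_⟩
    rw [eq_div_of_mul_eq (den_ne hx hi h1) h2, hq, map_sum, Finset.sum_div]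
    exact Finset.sum_congr rfl fun j _ => by rw [map_mul]; ring
  all_goals
    have key : ∀ V ∈ D, x ∈ center ξ V → ∃ j, V = W (h.fr i) (X_prime (i := j)) := by
      intro V hV hc
      obtain ⟨l, rfl⟩ := hD V hV
      obtain ⟨j, hj⟩ := Fin.exists_succAbove_eq (x := l.succ) (y := i) fun e =>
        hi (e ▸ (h.mem_center_H l).1 hc)
      exact ⟨j, h.H_eq l hj⟩
  · intro V hV V' hV' e
    have h1 := key V hV.1 hV.2
    have h2 := key V' hV'.1 hV'.2
    simp only [dif_pos h1, dif_pos h2] at e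
    rw [h1.choose_spec, h2.choose_spec]
    congr! 3
  · intro V hV hc g hg
    have h1 := key V hV hc
    simp only [dif_pos h1]
    have h2 := h1.choose_spec
    generalize h1.choose = j at h2
    subst h2
    have h3 : ch x.rep i j = 0 := by
      by_contra h3
      exact (W_lt (h.fr i) (X_prime (i := j))).ne (val_poly hc hi (by simpa using h3))
    obtain ⟨a, b, h4, h5⟩ := (mem_loc hx hi).1 hg
    have h6 := congrArg (W (h.fr i) (X_prime (i := j))).valuation h5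
    rw [map_mul, val_poly hc hi h4, mul_one] at h6
    rw [h3, map_zero, sub_zero]
    constructor
    · intro h7
      obtain ⟨c, rfl⟩ := (W_lt_iff (h.fr i) (X_prime (i := j)) a).1 (h6 ▸ h7)
      refine ⟨_, div_mem_loc hx hi c h4, ?_⟩
      rw [eq_div_of_mul_eq (den_ne hx hi h4) h5, map_mul]; ring
    · rintro ⟨c, h7, rfl⟩
      rw [map_mul, mul_comm]
      exact mul_lt_one_of_lt_of_le (W_lt (h.fr i) _)
        ((ValuationSubring.valuation_le_one_iff _ _).2 (hc.2 h7))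

theorem Gen.lf_ne : lf ξ 0 ≠ 0 := H79.lf_ne h.ne h.top

theorem Gen.ordF_prime (hV : IsPrimeDiv ξ V) (hx : x ∈ center ξ V) (hi : x.rep i ≠ 0) :
    ∃ g : K, V.valuation g = V.valuation (∏ a, ξ a / ξ i)⁻¹ ∧ ordF V (lf ξ 0) = ord V g := by
  obtain ⟨a, ha, e⟩ := lf_unit h.ne h.lf_ne V i
  rw [lf_eq h.ne i, smul_smul] at e
  refine ⟨a * (∏ a, ξ a / ξ i)⁻¹, by rw [map_mul, ha, one_mul], ?_⟩
  have h0 : dw (ch ξ i) ≠ 0 := fun h0 => h.lf_ne (by rw [e, h0, smul_zero])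
  rw [e]
  refine ordF_smul h0 ?_ _
  exact reg_iff (const_mem hx) (fun j => coord_mem hx hi _) (fun j => coord_mem hx hi _)
    Cmb.self (prime_loc hV hx hi)

end Pool.Agent.MP_776d16_ag.H79
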