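import Pool.Agent.MP_776d16_ag.H79.Defs

/-! Orders along discrete valuation rings, and the valuation ring of a prime element. -/

namespace Pool.Agent.MP_776d16_ag.H79

open MvPolynomial

variable {K : Type} [Field K] {V : ValuationSubring K}

theorem val_irr_lt {t : V} (ht : Irreducible t) : V.valuation (t : K) < 1 :=
  (V.valuation_lt_one_iff t).1 ((IsLocalRing.mem_maximalIdeal _).2 ht.not_isUnit)

theorem val_irr_pos {t : V} (ht : Irreducible t) : 0 < V.valuation (t : K) :=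
  (Valuation.pos_iff _).2 fun h => ht.ne_zero (Subtype.ext h)

theorem val_irr_eq (hV : IsDiscreteValuationRing V) {t s : V} (ht : Irreducible t)
    (hs : Irreducible s) : V.valuation (s : K) = V.valuation (t : K) := by
  obtain ⟨u, rfl⟩ := IsDiscreteValuationRing.associated_of_irreducible V ht hs
  rw [MulMemClass.coe_mul, map_mul, V.valuation_unit u, mul_one]

theorem exists_val (hV : IsDiscreteValuationRing V) {t : V} (ht : Irreducible t) {g : K}
    (hg : g ≠ 0) : ∃ k : ℤ, V.valuation g = V.valuation (t : K) ^ k := by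
  have key : ∀ g : K, g ≠ 0 → g ∈ V → ∃ k : ℕ, V.valuation g = V.valuation (t : K) ^ k := by
    intro g hg h
    obtain ⟨k, u, e⟩ := IsDiscreteValuationRing.eq_unit_mul_pow_irreducible
      (x := (⟨g, h⟩ : V)) (fun h0 => hg (congrArg Subtype.val h0)) ht
    refine ⟨k, ?_⟩
    have e' : g = ((u : V) : K) * (t : K) ^ k := by simpa using congrArg Subtype.val e
    rw [e', map_mul, V.valuation_unit u, one_mul, map_pow]
  rcases V.mem_or_inv_mem g with h | h
  · obtain ⟨k, e⟩ := key g hg h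
    exact ⟨k, by rw [e, zpow_natCast]⟩
  · obtain ⟨k, e⟩ := key g⁻¹ (inv_ne_zero hg) h
    refine ⟨-k, ?_⟩
    rw [zpow_neg, zpow_natCast, ← e, map_inv₀, inv_inv]

theorem ord_set (hV : IsDiscreteValuationRing V) {t : V} (ht : Irreducible t) {g : K} {k : ℤ}
    (h : V.valuation g = V.valuation (t : K) ^ k) :
    {r : ℤ | ∃ t : V, Irreducible t ∧ (t : K) ^ (-r) * g ∈ V} = Set.Iic k := by
  have key : ∀ (r : ℤ) (s : V), Irreducible s → ((s : K) ^ (-r) * g ∈ V ↔ r ≤ k) := by
    intro r s hs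
    rw [← V.valuation_le_one_iff, map_mul, map_zpow₀, val_irr_eq hV ht hs, h,
      ← zpow_add₀ (val_irr_pos ht).ne',
      zpow_le_one_iff_right_of_lt_one₀ (val_irr_pos ht) (val_irr_lt ht)]
    omega
  ext r
  exact ⟨fun ⟨s, hs, h1⟩ => (key r s hs).1 h1, fun h1 => ⟨t, ht, (key r t ht).2 h1⟩⟩

theorem ord_eq (hV : IsDiscreteValuationRing V) {t : V} (ht : Irreducible t) {g : K} {k : ℤ}
    (h : V.valuation g = V.valuation (t : K) ^ k) : ord V g = k := by
  rw [ord, ord_set hV ht h, csSup_Iic]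

theorem ord_congr (hV : IsDiscreteValuationRing V) {g g' : K} (hg : g ≠ 0)
    (h : V.valuation g' = V.valuation g) : ord V g' = ord V g := by
  obtain ⟨t, ht⟩ := IsDiscreteValuationRing.exists_irreducible V
  obtain ⟨k, e⟩ := exists_val hV ht hg
  rw [ord_eq hV ht e, ord_eq hV ht (h.trans e)]

theorem ord_div (hV : IsDiscreteValuationRing V) {t : V} (ht : Irreducible t) {g g' : K}
    (hg : g ≠ 0) (h : V.valuation g' * V.valuation (t : K) = V.valuation g) :
    ord V g' + 1 = ord V g := by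
  obtain ⟨k, e⟩ := exists_val hV ht hg
  have e' : V.valuation g' = V.valuation (t : K) ^ (k - 1) := by
    rw [zpow_sub_one₀ (val_irr_pos ht).ne', ← e, ← h, mul_inv_cancel_right₀ (val_irr_pos ht).ne']
  rw [ord_eq hV ht e, ord_eq hV ht e']
  ring

theorem ord_inv_nonpos (hV : IsDiscreteValuationRing V) {g : K} (hg : g ≠ 0) (h : g ∈ V) :
    ord V g⁻¹ ≤ 0 := by
  obtain ⟨t, ht⟩ := IsDiscreteValuationRing.exists_irreducible V
  obtain ⟨k, e⟩ := exists_val hV ht hg
  have h1 := (V.valuation_le_one_iff g).2 h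
  rw [e, zpow_le_one_iff_right_of_lt_one₀ (val_irr_pos ht) (val_irr_lt ht)] at h1
  rw [ord_eq hV ht (k := -k) (by rw [map_inv₀, e, zpow_neg])]
  omega

theorem val_eq_one {g : K} (hg : g ≠ 0) (h : g ∈ V) (h' : g⁻¹ ∈ V) : V.valuation g = 1 := by
  have h1 := (V.valuation_le_one_iff g).2 h
  have h2 := (V.valuation_le_one_iff g⁻¹).2 h'
  rw [map_inv₀, inv_le_one₀ ((Valuation.pos_iff _).2 hg)] at h2
  exact le_antisymm h1 h2

theorem inv_mem_of_val {g : K} (h : V.valuation g = 1) : g⁻¹ ∈ V := by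
  rw [← V.valuation_le_one_iff, map_inv₀, h, inv_one]

theorem ne_zero_of_val {g : K} (h : V.valuation g = 1) : g ≠ 0 := by
  rintro rfl
  simp at h

section W

variable {R : Type} [CommRing R] [IsDomain R] [WfDvdMonoid R]

/-- `K` is the fraction field of the image of `φ`. -/
structure Fr (φ : R →+* K) : Prop where
  inj : Function.Injective φ
  fr : ∀ g : K, ∃ a b : R, b ≠ 0 ∧ g * φ b = φ a

omit [IsDomain R] [WfDvdMonoid R] in
theorem Fr.ne {φ : R →+* K} (h : Fr φ) {b : R} (hb : b ≠ 0) : φ b ≠ 0 :=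
  fun h0 => hb (h.inj (h0.trans (map_zero φ).symm))

/-- The valuation ring of a prime element. -/
def W {φ : R →+* K} (h : Fr φ) {p : R} (hp : Prime p) : ValuationSubring K where
  carrier := {g | ∃ a b : R, ¬ p ∣ b ∧ g * φ b = φ a}
  zero_mem' := ⟨0, 1, hp.not_dvd_one, by simp⟩
  one_mem' := ⟨1, 1, hp.not_dvd_one, by simp⟩
  neg_mem' := by
    rintro g ⟨a, b, c, d⟩
    exact ⟨-a, b, c, by rw [map_neg, ← d, neg_mul]⟩
  add_mem' := by
    rintro g g' ⟨a, b, c, d⟩ ⟨a', b', c', d'⟩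
    refine ⟨a * b' + b * a', b * b', fun h => (hp.dvd_or_dvd h).elim c c', ?_⟩
    simp only [map_add, map_mul, ← d, ← d']; ring
  mul_mem' := by
    rintro g g' ⟨a, b, c, d⟩ ⟨a', b', c', d'⟩
    refine ⟨a * a', b * b', fun h => (hp.dvd_or_dvd h).elim c c', ?_⟩
    simp only [map_mul, ← d, ← d']; ring
  mem_or_inv_mem' := by
    intro g
    obtain ⟨a, b, hb, e⟩ := h.fr g
    by_cases hg : g = 0
    · exact Or.inl ⟨0, 1, hp.not_dvd_one, by simp [hg]⟩
    have ha : a ≠ 0 := by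
      rintro rfl
      rw [map_zero] at e
      exact mul_ne_zero hg (h.ne hb) e
    obtain ⟨r, a', h1, rfl⟩ := WfDvdMonoid.max_power_factor ha hp.irreducible
    obtain ⟨s, b', h2, rfl⟩ := WfDvdMonoid.max_power_factor hb hp.irreducible
    have h0 := h.ne hp.ne_zero
    simp only [map_mul, map_pow] at e
    rcases le_total s r with h3 | h3
    · obtain ⟨u, rfl⟩ := Nat.exists_eq_add_of_le h3
      refine Or.inl ⟨p ^ u * a', b', h2, mul_left_cancel₀ (pow_ne_zero s h0) ?_⟩
      simp only [map_mul, map_pow]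
      linear_combination e
    · obtain ⟨u, rfl⟩ := Nat.exists_eq_add_of_le h3
      refine Or.inr ⟨p ^ u * b', a', h1, mul_left_cancel₀ (mul_ne_zero hg (pow_ne_zero r h0)) ?_⟩
      simp only [map_mul, map_pow]
      have := mul_inv_cancel₀ hg
      linear_combination (-1 : K) * e + φ p ^ r * φ a' * this

variable {φ : R →+* K} (h : Fr φ) {p : R} (hp : Prime p)

theorem mem_W {g : K} : g ∈ W h hp ↔ ∃ a b : R, ¬ p ∣ b ∧ g * φ b = φ a := Iff.rfl

theorem W_mem (a : R) : φ a ∈ W h hp := ⟨a, 1, hp.not_dvd_one, by simp⟩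

theorem W_unit {b : R} (hb : ¬ p ∣ b) : (W h hp).valuation (φ b) = 1 := by
  have h0 : φ b ≠ 0 := h.ne fun e => hb (e ▸ dvd_zero p)
  exact val_eq_one h0 (W_mem h hp b) ⟨1, b, hb, by simp [h0]⟩

theorem W_lt : (W h hp).valuation (φ p) < 1 := by
  refine lt_of_le_of_ne (((W h hp).valuation_le_one_iff _).2 (W_mem h hp p)) fun e => ?_
  obtain ⟨a, b, h1, h2⟩ := inv_mem_of_val e
  refine h1 ⟨a, h.inj ?_⟩
  rw [map_mul, ← h2, mul_inv_cancel_left₀ (h.ne hp.ne_zero)]

theorem W_lt_iff (a : R) : (W h hp).valuation (φ a) < 1 ↔ p ∣ a := by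
  refine ⟨fun h1 => by_contra fun h2 => h1.ne (W_unit h hp h2), ?_⟩
  rintro ⟨c, rfl⟩
  rw [map_mul, map_mul]
  exact mul_lt_one_of_lt_of_le (W_lt h hp) (((W h hp).valuation_le_one_iff _).2 (W_mem h hp c))

theorem W_ne_top : W h hp ≠ ⊤ := by
  intro e
  refine (W_lt h hp).ne (val_eq_one (h.ne hp.ne_zero) (W_mem h hp p) ?_)
  rw [e]
  exact ValuationSubring.mem_top _

theorem W_irr : Irreducible (⟨φ p, W_mem h hp p⟩ : W h hp) := by
  refine ⟨fun hu => (W_lt h hp).ne (((W h hp).valuation_eq_one_iff _).1 hu), ?_⟩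
  rintro ⟨u, a, b, h1, h2⟩ ⟨v, c, d, h3, h4⟩ e
  have e' : φ p = u * v := congrArg Subtype.val e
  have e1 : p * (b * d) = a * c := h.inj (by
    simp only [map_mul, ← h2, ← h4, e']; ring)
  have key : ∀ (u : K) (hu : u ∈ W h hp) (a b : R), ¬ p ∣ b → u * φ b = φ a → ¬ p ∣ a →
      IsUnit (⟨u, hu⟩ : W h hp) := by
    intro u hu a b h1 h2 h3
    refine ((W h hp).valuation_eq_one_iff _).2 ?_
    have := congrArg (W h hp).valuation h2
    rwa [map_mul, W_unit h hp h1, W_unit h hp h3, mul_one] at this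
  have hbd : ¬ p ∣ b * d := fun h => (hp.dvd_or_dvd h).elim h1 h3
  by_cases ha : p ∣ a
  · refine Or.inr (key _ _ c d h3 h4 ?_)
    obtain ⟨a', rfl⟩ := ha
    rw [mul_assoc] at e1
    intro hc
    exact hbd (mul_left_cancel₀ hp.ne_zero e1 ▸ hc.mul_left a')
  · exact Or.inl (key _ _ a b h1 h2 ha)

theorem W_dvr : IsDiscreteValuationRing (W h hp) := by
  refine IsDiscreteValuationRing.ofHasUnitMulPowIrreducibleFactorization ⟨_, W_irr h hp, ?_⟩
  rintro ⟨g, a, b, h1, h2⟩ hg
  have hg' : g ≠ 0 := fun e => hg (Subtype.ext e)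
  have hb : φ b ≠ 0 := ne_zero_of_val (W_unit h hp h1)
  have ha : a ≠ 0 := by
    rintro rfl
    rw [map_zero] at h2
    exact mul_ne_zero hg' hb h2
  obtain ⟨r, a', h3, rfl⟩ := WfDvdMonoid.max_power_factor ha hp.irreducible
  have hm : φ a' / φ b ∈ W h hp := ⟨a', b, h1, div_mul_cancel₀ _ hb⟩
  have hu : IsUnit (⟨_, hm⟩ : W h hp) := by
    refine ((W h hp).valuation_eq_one_iff _).2 ?_
    simp only [map_div₀, W_unit h hp h1, W_unit h hp h3, div_one]
  refine ⟨r, hu.unit, Subtype.ext ?_⟩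
  simp only [IsUnit.unit_spec, MulMemClass.coe_mul, SubmonoidClass.coe_pow]
  rw [map_mul, map_pow] at h2
  field_simp
  linear_combination -h2

/-- A discrete valuation ring that is a localization of the image of `φ`, with `p` not a unit. -/
theorem eq_W (hV : IsDiscreteValuationRing V) (hR : ∀ a, φ a ∈ V)
    (hl : ∀ g ∈ V, ∃ a b : R, V.valuation (φ b) = 1 ∧ g * φ b = φ a)
    (hlt : V.valuation (φ p) ≠ 1) : V = W h hp := by
  refine ValuationSubring.eq_of_le_of_ne_top _ (fun g hg => ?_) (W_ne_top h hp)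
  obtain ⟨a, b, h1, h2⟩ := hl g hg
  refine ⟨a, b, ?_, h2⟩
  rintro ⟨c, rfl⟩
  have h3 := lt_of_le_of_ne ((V.valuation_le_one_iff _).2 (hR p)) hlt
  rw [map_mul, map_mul] at h1
  exact (mul_lt_one_of_lt_of_le h3 ((V.valuation_le_one_iff _).2 (hR c))).ne h1

end W

/-- An element of `K` that lies in the valuation ring of every prime element of a prime ideal has
a denominator outside the ideal. -/
theorem exists_den {R : Type} [CommRing R] [IsDomain R] [UniqueFactorizationMonoid R]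
    {φ : R →+* K} (h : Fr φ) (ev : R →+* ℂ) {g : K}
    (hg : ∀ (p : R) (hp : Prime p), ev p = 0 → g ∈ W h hp) :
    ∃ a b : R, ev b ≠ 0 ∧ g * φ b = φ a := by
  obtain ⟨a, b, hb, e⟩ := h.fr g
  obtain ⟨a', b', c, hr, rfl, rfl⟩ := UniqueFactorizationMonoid.exists_reduced_factors' a b hb
  have hc : c ≠ 0 := left_ne_zero_of_mul hb
  have hb' : b' ≠ 0 := right_ne_zero_of_mul hb
  have e' : g * φ b' = φ a' := by
    refine mul_left_cancel₀ (h.ne hc) ?_
    simp only [map_mul] at e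
    linear_combination e
  refine ⟨a', b', fun h0 => ?_, e'⟩
  obtain ⟨s, hs, u, hu⟩ := UniqueFactorizationMonoid.exists_prime_factors b' hb'
  have h1 : ev s.prod = 0 := by
    have := congrArg ev hu
    rw [map_mul, h0] at this
    exact (mul_eq_zero.1 this).resolve_right (u.isUnit.map ev).ne_zero
  rw [map_multiset_prod, Multiset.prod_eq_zero_iff, Multiset.mem_map] at h1
  obtain ⟨p, hp, h2⟩ := h1
  have hp' := hs p hp
  have h3 : p ∣ b' := hu ▸ (Multiset.dvd_prod hp).mul_right _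
  have h4 : (W h hp').valuation (φ a') < 1 := by
    rw [← e', map_mul, mul_comm]
    exact mul_lt_one_of_lt_of_le ((W_lt_iff h hp' b').2 h3)
      (((W h hp').valuation_le_one_iff _).2 (hg p hp' h2))
  exact hp'.not_isUnit (hr ((W_lt_iff h hp' a').1 h4) h3)

end Pool.Agent.MP_776d16_ag.H79
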